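import Pool.Agent.MP_a4a062_nt.Q58.Defs2

set_option autoImplicit false

open Polynomial Finset Filter
open scoped Classical BigOperators

noncomputable section
namespace Pool.Agent.MP_a4a062_nt.Q58
open Pool.Agent.MP_a4a062_nt.C2

section
variable {k : Type*} [Field k] [Fintype k] [CharP k 2]

-- helper lemmas of this row: prefix berl_

omit [Fintype k] [CharP k 2] in
theorem berl_monic {A B : k[X]} (h : B.natDegree < A.natDegree) :
    (C (A.leadingCoeff⁻¹ ^ 2) * (A ^ 2 + X * B ^ 2)).Monic ∧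
      (C (A.leadingCoeff⁻¹ ^ 2) * (A ^ 2 + X * B ^ 2)).natDegree = 2 * A.natDegree := by
  have hA : A ≠ 0 := by
    rintro rfl
    simp at h
  have hl : A.leadingCoeff ≠ 0 := leadingCoeff_ne_zero.2 hA
  have dA : (A ^ 2).natDegree = 2 * A.natDegree := natDegree_pow A 2
  have dB : (X * B ^ 2).natDegree < (A ^ 2).natDegree := by
    have b1 := natDegree_mul_le (p := (X : k[X])) (q := B ^ 2)
    have b2 := natDegree_pow_le (p := B) (n := 2)
    rw [natDegree_X] at b1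
    omega
  refine ⟨?_, ?_⟩
  · refine monic_C_mul_of_mul_leadingCoeff_eq_one ?_
    rw [add_comm, leadingCoeff_add_of_degree_lt (degree_lt_degree dB), leadingCoeff_pow, ← mul_pow,
      inv_mul_cancel₀ hl, one_pow]
  · rw [natDegree_C_mul (pow_ne_zero 2 (inv_ne_zero hl)), natDegree_add_eq_left_of_natDegree_lt dB,
      dA]

theorem berl_row : BERL_s k := by
  intro m
  refine ⟨(∑ i : Fin (2 * m), ∑ _j ∈ Ioi i, (1 : k)) ^ 2, fun A B V hB hm hA hV => ?_⟩
  obtain ⟨H1, H2, H3⟩ := lb_hasse A B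
  obtain ⟨hg, hn⟩ := berl_monic (hm ▸ hA : B.natDegree < A.natDegree)
  have hA0 : A ≠ 0 := by
    rintro rfl
    rw [natDegree_zero] at hm
    omega
  have hu : A.leadingCoeff⁻¹ ≠ 0 := inv_ne_zero (leadingCoeff_ne_zero.2 hA0)
  rw [hm] at hn
  unfold NN
  rw [← H2, ← H3]
  generalize A ^ 2 + X * B ^ 2 = f at *
  generalize A.leadingCoeff⁻¹ = u at *
  obtain ⟨s, hs⟩ := hV
  have hW : (C (u⁻¹ ^ 2) : k[X]) * C (u ^ 2) = 1 := by
    rw [← C_mul, ← mul_pow, inv_mul_cancel₀ hu, one_pow, C_1]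
  have hf0 : f ≠ 0 := right_ne_zero_of_mul hg.ne_zero
  have hlam : lam (C (u ^ 2) * f) = lam f := by
    have hc : (C u : k[X]) ≠ 0 := C_ne_zero.2 hu
    rw [C_pow, sq, lam_mul (mul_ne_zero hc hc) hf0, lam_mul hc hc, lam_mul_self, one_mul]
  have hH : ∀ l, hasseDeriv l (C (u ^ 2) * f) = C (u ^ 2) * hasseDeriv l f := fun l => by
    rw [← smul_eq_C_mul, ← smul_eq_C_mul, map_smul]
  generalize u ^ 2 = w at *
  generalize (C (u⁻¹ ^ 2) : k[X]) = W' at *
  have hd : derivative (C w * f) = C w * B ^ 2 := by rw [← hasseDeriv_one', hH, H1]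
  have hs' : C w * f * (W' * V) - 1 = B ^ 4 * s := by linear_combination hs + (f * V) * hW
  generalize hN : (X * hasseDeriv 2 f) ^ 3 + X * hasseDeriv 2 f * (X ^ 2 * hasseDeriv 3 f) * B ^ 2 +
    X ^ 3 * hasseDeriv 4 f * B ^ 4 = N
  generalize C w * f = g at *
  have hsep : g.Separable := ⟨W' * V, -(W' * B ^ 2 * s), by
    rw [hd]; linear_combination hs' - (B ^ 4 * s) * hW⟩
  have hinv : g ∣ B ^ 4 * (-s) - 1 := ⟨-(W' * V), by linear_combination hs'⟩
  have crt := lb_crt hg (hB.pow 4) hinv ⟨s, hs'⟩ (C w * N)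
  rw [show C w * N * (W' * V) = N * V by linear_combination (N * V) * hW] at crt
  have ex := exists_roots hg hsep
  rw [hn] at ex
  obtain ⟨a, σ, ha, hr, hσ, hsg⟩ := ex
  have hfm : g.map (algebraMap k (AlgebraicClosure k)) = ∏ j, (X - C (a j)) := by
    refine eq_of_monic_of_dvd_of_natDegree_le (monic_prod_of_monic _ _ fun j _ => monic_X_sub_C _)
      (hg.map _) (Finset.prod_dvd_of_coprime (fun i _ j _ hij => ?_) fun j _ => dvd_iff_isRoot.2 (hr j))
      ?_
    · exact isCoprime_X_sub_C_of_isUnit_sub (sub_ne_zero.2 (ha.ne hij)).isUnit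
    · rw [natDegree_map, hn, natDegree_prod_of_monic _ _ fun j _ => monic_X_sub_C _]
      simp
  obtain ⟨h0, hβ⟩ := lb_beta ha (fun l => (hasseDeriv l g).map (algebraMap k _)) fun l => by
    rw [← hfm]; ext j; simp [hasseDeriv_coeff]
  have tr : algebraMap k (AlgebraicClosure k) (tau g (C w * N * -s)) =
      ∑ i, ((N * B ^ 2 * s ^ 2).map (algebraMap k (AlgebraicClosure k))).eval (a i) := by
    rw [← tau_nodal, ← hfm, derivative_map, ← Polynomial.map_mul, ← tau_map _ hg, hd]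
    congr 1
    exact tau_congr hg (lb_dvd hinv hinv (C w * N * s) 0 0 (by ring))
  have key : (∑ i, ∑ j ∈ Ioi i, a i / (a i + a j)) ^ 2 + ∑ i, ∑ j ∈ Ioi i, a i / (a i + a j) =
      algebraMap k _ ((∑ i : Fin (2 * m), ∑ _j ∈ Ioi i, (1 : k)) ^ 2 + tau g (C w * N * -s)) := by
    rw [hβ, map_add, tr]
    simp only [map_pow, map_sum, map_one]
    congr 1
    refine sum_congr rfl fun i _ => ?_
    have e0 := h0 i
    have e1 := congrArg (fun P => (P.map (algebraMap k (AlgebraicClosure k))).eval (a i)) hs'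
    simp only [hH, H1, ← hN, Polynomial.map_mul, Polynomial.map_pow, Polynomial.map_add,
      Polynomial.map_sub, Polynomial.map_one, map_X, map_C, eval_C, eval_mul, eval_pow, eval_add,
      eval_sub, eval_one, eval_X, hr i, zero_mul] at e0 e1 ⊢
    rw [div_eq_iff (pow_ne_zero 3 e0)]
    generalize (B.map (algebraMap k (AlgebraicClosure k))).eval (a i) = β at *
    generalize (s.map (algebraMap k (AlgebraicClosure k))).eval (a i) = ς at *
    generalize ((hasseDeriv 2 f).map (algebraMap k (AlgebraicClosure k))).eval (a i) = η₂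
    generalize ((hasseDeriv 3 f).map (algebraMap k (AlgebraicClosure k))).eval (a i) = η₃
    generalize ((hasseDeriv 4 f).map (algebraMap k (AlgebraicClosure k))).eval (a i) = η₄
    generalize algebraMap k (AlgebraicClosure k) w = ω
    linear_combination
      (ω ^ 3 * a i ^ 3 * (η₂ ^ 3 + η₂ * η₃ * β ^ 2 + η₄ * β ^ 4) * (β ^ 4 * ς - 1)) * e1
  have hγ : MP_2033ac_nt.frob k (∑ i, ∑ j ∈ Ioi i, a i / (a i + a j)) =
      ∑ i, ∑ j ∈ Ioi i, a i / (a i + a j) + if Equiv.Perm.sign σ = 1 then 0 else 1 := by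
    rw [← lb_perm ha σ]
    simp only [map_sum, map_div₀, map_add, hσ]
  have fin := lb_psi key hγ
  rw [hsg, Even.neg_one_pow ⟨m, two_mul m⟩, one_mul, hlam] at fin
  rw [crt, add_assoc, add_assoc, CharTwo.add_self_eq_zero, add_zero, fin]

end

section
variable {k : Type*} [Field k] [Fintype k] [CharP k 2]

-- helper lemmas of this row: prefix inf2_

omit [Fintype k] [CharP k 2] in
theorem inf2_monic {A B : k[X]} (h : B.natDegree < A.natDegree) :
    (C (A.leadingCoeff⁻¹ ^ 2) * (A ^ 2 + X * B ^ 2)).Monic ∧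
      (C (A.leadingCoeff⁻¹ ^ 2) * (A ^ 2 + X * B ^ 2)).natDegree = 2 * A.natDegree := by
  have hA : A ≠ 0 := by
    rintro rfl
    simp at h
  have hl : A.leadingCoeff ≠ 0 := leadingCoeff_ne_zero.2 hA
  have dA : (A ^ 2).natDegree = 2 * A.natDegree := natDegree_pow A 2
  have dB : (X * B ^ 2).natDegree < (A ^ 2).natDegree := by
    have b1 := natDegree_mul_le (p := (X : k[X])) (q := B ^ 2)
    have b2 := natDegree_pow_le (p := B) (n := 2)
    rw [natDegree_X] at b1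
    omega
  refine ⟨?_, ?_⟩
  · refine monic_C_mul_of_mul_leadingCoeff_eq_one ?_
    rw [add_comm, leadingCoeff_add_of_degree_lt (degree_lt_degree dB), leadingCoeff_pow, ← mul_pow,
      inv_mul_cancel₀ hl, one_pow]
  · rw [natDegree_C_mul (pow_ne_zero 2 (inv_ne_zero hl)), natDegree_add_eq_left_of_natDegree_lt dB,
      dA]

omit [Fintype k] [CharP k 2] in
theorem inf2_deg {A B : k[X]} {a : ℕ} (hA : A.natDegree ≤ a) (hB : B.natDegree ≤ a) :
    (NN A B).natDegree ≤ 6 * a + 6 := by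
  have pw : ∀ (P : k[X]) (n d : ℕ), P.natDegree ≤ d → (P ^ n).natDegree ≤ n * d :=
    fun P n d h => natDegree_pow_le.trans (Nat.mul_le_mul_left n h)
  have ml : ∀ (P Q : k[X]) (c d : ℕ), P.natDegree ≤ c → Q.natDegree ≤ d →
      (P * Q).natDegree ≤ c + d := fun P Q c d h h' => natDegree_mul_le.trans (add_le_add h h')
  have x1 : (X : k[X]).natDegree ≤ 1 := natDegree_X_le
  have dA : (derivative A).natDegree ≤ a := (natDegree_derivative_le A).trans (by omega)
  have dB : (derivative B).natDegree ≤ a := (natDegree_derivative_le B).trans (by omega)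
  have h1 : (X * (derivative A ^ 2 + X * derivative B ^ 2)).natDegree ≤ 1 + (1 + 2 * a) :=
    ml _ _ _ _ x1 (natDegree_add_le_of_degree_le ((pw _ 2 _ dA).trans (by omega))
      (ml _ _ _ _ x1 (pw _ 2 _ dB)))
  have h2 : (hasseDeriv 4 (A ^ 2 + X * B ^ 2)).natDegree ≤ 1 + 2 * a :=
    (natDegree_hasseDeriv_le _ 4).trans ((Nat.sub_le _ _).trans
      (natDegree_add_le_of_degree_le ((pw _ 2 _ hA).trans (by omega)) (ml _ _ _ _ x1 (pw _ 2 _ hB))))
  unfold NN
  refine natDegree_add_le_of_degree_le (natDegree_add_le_of_degree_le ?_ ?_) ?_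
  · exact (pw _ 3 _ h1).trans (by omega)
  · exact (ml _ _ _ _ (ml _ _ _ _ h1 (ml _ _ _ _ (pw _ 2 _ x1) (pw _ 2 _ dB))) (pw _ 2 _ hB)).trans
      (by omega)
  · exact (ml _ _ _ _ (ml _ _ _ _ (pw _ 3 _ x1) h2) (pw _ 4 _ hB)).trans (by omega)

omit [Fintype k] [CharP k 2] in
theorem inf2_pdeg (B M W : k[X]) (c : k) (i : ℕ) {e : ℕ} {a : k[X] → k[X]} (h1 : PDeg e a) :
    PDeg (e * 2 * 3 + e * 2 * i) fun s : k[X] =>
      c + tau M (W * NN (a s) B * (W * (a s ^ 2 + X * B ^ 2)) ^ i) := by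
  have cm : ∀ {n : ℕ} {F : k[X] → k[X]} (P : k[X]), PDeg n F → PDeg n fun s => P * F s :=
    fun P h => h.map (fun x => P * x) fun a b => mul_add P a b
  have mc : ∀ {n : ℕ} {F : k[X] → k[X]} (P : k[X]), PDeg n F → PDeg n fun s => F s * P :=
    fun P h => h.map (fun x => x * P) fun a b => add_mul a b P
  have h2 : PDeg (e * 2) fun s : k[X] => a s ^ 2 + X * B ^ 2 :=
    (a1_pow h1 2).add (PDeg.const _ _)
  have h3 : PDeg (e * 2) fun s : k[X] => X * (derivative (a s) ^ 2 + X * derivative B ^ 2) :=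
    cm X ((a1_pow (h1.map (fun x => derivative x) fun a b => derivative_add) 2).add
      (PDeg.const _ _))
  have h4 : PDeg (e * 2 * 3) fun s : k[X] => NN (a s) B :=
    ((a1_pow h3 3).add ((mc _ (mc _ h3)).mono (by omega))).add
      ((mc _ (cm _ (h2.map (fun x => hasseDeriv 4 x) fun a b => map_add _ a b))).mono (by omega))
  exact (PDeg.const _ c).add
    (((cm W h4).mul (a1_pow (cm W h2) i)).map (fun x => tau M x) fun a b => tau_add M a b)

theorem inf2_row (hBERL : BERL_s k) : INF2_s k := by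
  intro j A₀ B hB hd
  obtain ⟨c, hc⟩ := hBERL A₀.natDegree
  obtain ⟨i, hi⟩ : ∃ i, 2 ^ j = i + 1 := ⟨2 ^ j - 1, (Nat.sub_add_cancel Nat.one_le_two_pow).symm⟩
  obtain ⟨g0, n0⟩ := inf2_monic hd
  refine ⟨fun A => psi (c + tau ((C (A₀.leadingCoeff⁻¹ ^ 2) * (A₀ ^ 2 + X * B ^ 2)) ^ 2 ^ j * B ^ 4)
    (C (A₀.leadingCoeff⁻¹ ^ 2) * NN A B *
      (C (A₀.leadingCoeff⁻¹ ^ 2) * (A ^ 2 + X * B ^ 2)) ^ i)), fun e a ha A => ?_,
    fun δ V g h1 h2 hV => ?_⟩
  · have h1 : PDeg e fun s : k[X] => a (A + 1 * s) :=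
      pdeg_congr (ha.shift A) fun s => by rw [one_mul, add_comm]
    exact ⟨1, _, by norm_num, (inf2_pdeg B _ _ c i h1).mono (le_of_eq (by rw [hi]; ring)),
      fun s => (one_mul _).symm⟩
  have hg : 0 < g := by
    rcases Nat.eq_zero_or_pos g with rfl | h
    · omega
    · exact h
  have hδ : δ.natDegree < A₀.natDegree := by omega
  have e1 : (A₀ + δ).natDegree = A₀.natDegree := natDegree_add_eq_left_of_natDegree_lt hδ
  have e2 : (A₀ + δ).leadingCoeff = A₀.leadingCoeff := by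
    rw [add_comm, leadingCoeff_add_of_degree_lt (degree_lt_degree hδ)]
  obtain ⟨g1, n1⟩ := inf2_monic (A := A₀ + δ) (B := B) (by omega)
  have dN : (NN (A₀ + δ) B).natDegree ≤ 6 * A₀.natDegree + 6 := inf2_deg e1.le hd.le
  rw [hc (A₀ + δ) B V hB e1 hd hV, psi_add]
  rw [e2] at g1 n1 ⊢
  rw [e1] at n1
  congr 3
  have h2' : (2 : k[X]) = 0 := CharTwo.two_eq_zero
  generalize A₀.leadingCoeff⁻¹ ^ 2 = w at *
  have eG : C w * (A₀ ^ 2 + X * B ^ 2) = C w * ((A₀ + δ) ^ 2 + X * B ^ 2) + C w * δ ^ 2 := by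
    linear_combination (-(C w * (A₀ * δ + δ ^ 2))) * h2'
  have eJ : (C w * (A₀ ^ 2 + X * B ^ 2)) ^ 2 ^ j =
      (C w * ((A₀ + δ) ^ 2 + X * B ^ 2)) ^ i * (C w * ((A₀ + δ) ^ 2 + X * B ^ 2)) +
        (C w * δ ^ 2) ^ 2 ^ j := by
    rw [eG, add_pow_char_pow, ← pow_succ, ← hi]
  have dE : ((C w * δ ^ 2) ^ 2 ^ j).natDegree ≤ 2 ^ j * (2 * δ.natDegree) :=
    natDegree_pow_le.trans (Nat.mul_le_mul_left _ ((natDegree_C_mul_le _ _).trans natDegree_pow_le))
  have dP : (C w * NN (A₀ + δ) B).natDegree ≤ 6 * A₀.natDegree + 6 :=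
    (natDegree_C_mul_le _ _).trans dN
  have g0' := g0.pow (2 ^ j)
  have n0' : ((C w * (A₀ ^ 2 + X * B ^ 2)) ^ 2 ^ j).natDegree = 2 ^ j * (2 * A₀.natDegree) := by
    rw [g0.natDegree_pow, n0]
  generalize (C w * (A₀ ^ 2 + X * B ^ 2)) ^ 2 ^ j = G₀ at *
  generalize C w * ((A₀ + δ) ^ 2 + X * B ^ 2) = G at *
  generalize (C w * δ ^ 2) ^ 2 ^ j = E at *
  generalize C w * NN (A₀ + δ) B = P at *
  have z : tau (G₀ * B ^ 4 * G) (P * E) = 0 := by
    refine tauh_top ((g0'.mul (hB.pow 4)).mul g1) (Or.inl ?_)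
    rw [(g0'.mul (hB.pow 4)).natDegree_mul g1, g0'.natDegree_mul (hB.pow 4), n0', n1]
    have b1 := natDegree_mul_le (p := P) (q := E)
    have b2 := Nat.mul_le_mul_left (2 ^ j) h1
    rw [mul_add] at b2
    rw [mul_left_comm] at dE
    rw [mul_left_comm]
    omega
  rw [← tau_mul (g1.mul (hB.pow 4)) g0', ← tau_mul (g0'.mul (hB.pow 4)) g1 (P * G ^ i),
    ← add_zero (tau (G₀ * B ^ 4 * G) _), ← z, ← tau_add,
    show G * B ^ 4 * G₀ = G₀ * B ^ 4 * G by ring]
  congr 1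
  linear_combination P * eJ

end

section
variable {k : Type*} [Field k] [Fintype k] [CharP k 2]

-- helper lemmas of this row: prefix loc4_

theorem loc4_piece {M r B A U G V : k[X]} (hB : B = M * r) (hM : M.Monic)
    (hU : M ^ 4 ∣ A * U - 1) (hG : M ^ 4 ∣ r * G - 1)
    (hV : B ^ 4 ∣ (A ^ 2 + X * B ^ 2) * V - 1) :
    psi (tau (M ^ 4) (NN A B * V * G ^ 4)) = psi (vv M B A U G) := by
  subst hB
  exact lb_local (X ^ 3 * hasseDeriv 4 (A ^ 2 + X * (M * r) ^ 2)) hM hU hG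
    ((pow_dvd_pow_of_dvd (dvd_mul_right M r) 4).trans hV)

omit [Fintype k] [CharP k 2] in
theorem loc4_pw {x y z : k[X]} (h : x ^ 4 ∣ y * z - 1) : x ^ 4 ∣ y ^ 4 * z ^ 4 - 1 := by
  rw [← mul_pow]
  exact h.trans (by simpa using sub_dvd_pow_sub_pow (y * z) 1 4)

omit [Fintype k] [CharP k 2] in
theorem loc4_mul {m a a' b b' : k[X]} (h1 : m ∣ a * a' - 1) (h2 : m ∣ b * b' - 1) :
    m ∣ a * b * (a' * b') - 1 := by
  obtain ⟨s, hs⟩ := h1
  obtain ⟨t, ht⟩ := h2
  exact ⟨s * (b * b') + t, by linear_combination (b * b') * hs + ht⟩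

omit [Fintype k] [CharP k 2] in
theorem loc4_cop {A B V : k[X]} (hV : B ^ 4 ∣ (A ^ 2 + X * B ^ 2) * V - 1) : IsCoprime A B := by
  obtain ⟨s, hs⟩ := hV
  exact ⟨A * V, X * B * V - B ^ 3 * s, by linear_combination hs⟩

omit [Fintype k] in
theorem loc4_vv {M : k[X]} (hM : M.Monic) (B A U G x : k[X]) :
    vv M B (A + M ^ 4 * x) U G = vv M B A U G := by
  have h2 : (2 : k[X]) = 0 := CharTwo.two_eq_zero
  have hd : derivative (A + M ^ 4 * x) = derivative A + M ^ 4 * derivative x := by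
    simp only [derivative_add, derivative_mul, derivative_pow, Nat.cast_ofNat, map_ofNat]
    linear_combination (2 * M ^ 3 * derivative M * x) * h2
  have e1 : (derivative A + M ^ 4 * derivative x) * G =
      derivative A * G + M * (M ^ 3 * derivative x * G) := by ring
  have e2 : M ^ 4 ∣ ((A + M ^ 4 * x) * (derivative A + M ^ 4 * derivative x) +
      X * B * derivative B) ^ 3 - (A * derivative A + X * B * derivative B) ^ 3 :=
    Dvd.dvd.trans ⟨A * derivative x + x * derivative A + M ^ 4 * x * derivative x, by ring⟩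
      (sub_dvd_pow_sub_pow _ _ 3)
  have d1 : (derivative A + M ^ 4 * derivative x) * G /ₘ M =
      derivative A * G /ₘ M + M ^ 3 * derivative x * G := by
    rw [e1, a1_div hM, mul_divByMonic_cancel_left _ hM]
  have d2 : (derivative A + M ^ 4 * derivative x) * G %ₘ M = derivative A * G %ₘ M := by
    rw [e1, add_modByMonic, (modByMonic_eq_zero_iff_dvd hM).2 (dvd_mul_right M _), add_zero]
  unfold vv
  rw [hd, d1, d2]
  generalize derivative A * G /ₘ M = q
  generalize derivative A * G %ₘ M = r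
  refine congrArg₂ (· + ·) (congrArg₂ (· + ·) (congrArg₂ (· + ·) ?_ ?_) ?_) ?_
  · exact tau_congr hM ⟨M ^ 2 * derivative x * G * r, by ring⟩
  · exact tau_congr hM ⟨M ^ 3 * derivative x * X * derivative B * U * G, by ring⟩
  · refine tau_congr (hM.pow 4) ?_
    rw [← sub_mul, ← sub_mul]
    exact (e2.mul_right _).mul_right _
  · refine tau_congr (hM.pow 2) ?_
    rw [← sub_mul, ← sub_mul, ← mul_sub]
    exact ((((pow_dvd_pow M (by norm_num)).trans e2).mul_left _).mul_right _).mul_right _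

theorem loc4_per {M : k[X]} (hM : M.Monic) (B G : k[X]) {u : k[X] → k[X]}
    (hu : ∀ A, IsCoprime A M → M ^ 4 ∣ A * u A - 1) (A x : k[X]) :
    (if IsCoprime (A + M ^ 4 * x) M then
      1 * psi (vv M B (A + M ^ 4 * x) (u (A + M ^ 4 * x)) G) else 1) =
      if IsCoprime A M then 1 * psi (vv M B A (u A) G) else 1 := by
  have e : IsCoprime (A + M ^ 4 * x) M ↔ IsCoprime A M := by
    rw [show M ^ 4 * x = M * (M ^ 3 * x) by ring]
    exact loc_cop _
  by_cases hA : IsCoprime A M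
  · rw [if_pos hA, if_pos (e.2 hA), loc4_vv hM, vv_congr G hM (U' := u A)]
    refine (hA.pow_right (n := 4)).symm.dvd_of_dvd_mul_left ?_
    obtain ⟨s, hs⟩ := hu _ (e.2 hA)
    obtain ⟨t, ht⟩ := hu _ hA
    exact ⟨s - t - x * u (A + M ^ 4 * x), by linear_combination hs - ht⟩
  · rw [if_neg hA, if_neg (mt e.1 hA)]

theorem loc4_row : LOC4_s k := by
  intro p r₁ r₂ hp hi h₁ h₂ hc h
  obtain ⟨u, hu⟩ := loc_inv p
  obtain ⟨v, hv⟩ := loc_inv (r₁ * r₂)
  obtain ⟨v₁, hv₁⟩ := loc_inv r₁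
  obtain ⟨v₂, hv₂⟩ := loc_inv r₂
  have hpr : IsCoprime p (r₁ * r₂) := hi.coprime_iff_not_dvd.2 h
  have hG := hu _ hpr.symm
  have hG' := hv _ hpr
  have hG₂ := hv₁ _ hc.symm
  have hG₁ := hv₂ _ hc
  have p4 : p ∣ p ^ 4 := dvd_pow_self p (by norm_num)
  refine ⟨fun A => if IsCoprime A p then
      1 * psi (vv p (p * (r₁ * r₂)) A (u A) (u (r₁ * r₂))) else 1,
    fun A => if IsCoprime A r₁ then
      1 * psi (vv r₁ (p * (r₁ * r₂)) A (v₁ A) (v p * v₁ r₂)) else 1,
    fun A => if IsCoprime A r₂ then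
      1 * psi (vv r₂ (p * (r₁ * r₂)) A (v₂ A) (v p * v₂ r₁)) else 1,
    derivative p ^ 2 * u (r₁ * r₂) ^ 2, fun A => ?_,
    loc_kill h₁ _ _ hv₁ (by simp) (by simp), loc_kill h₂ _ _ hv₂ (by simp) (by simp), fun hk => ?_,
    loc4_per hp _ _ hu, loc4_per h₁ _ _ hv₁, loc4_per h₂ _ _ hv₂, fun A V hV => ?_, fun A y z U hU => ?_⟩
  · beta_reduce
    split_ifs
    · rw [one_mul, loc_psi_sq]
    · rw [one_mul]
  · have hpp := hi.prime
    have hsep : IsCoprime p (derivative p) := PerfectField.separable_of_irreducible hi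
    rcases hpp.dvd_or_dvd hk with h2 | h2
    · exact hi.not_isUnit (hsep.isUnit_of_dvd' dvd_rfl (hpp.dvd_of_dvd_pow h2))
    · have h3 : p ∣ r₁ * r₂ * u (r₁ * r₂) := (hpp.dvd_of_dvd_pow h2).mul_left _
      have h4 : p ∣ 1 := by simpa using dvd_sub h3 (p4.trans hG)
      exact hi.not_isUnit (isUnit_of_dvd_one h4)
  · have hco := loc4_cop hV
    have c0 := hco.of_mul_right_left
    have c1 := hco.of_mul_right_right.of_mul_right_left
    have c2 := hco.of_mul_right_right.of_mul_right_right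
    have l0 := loc4_piece rfl hp (hu A c0) hG hV
    have l1 := loc4_piece (M := r₁) (r := p * r₂) (by ring) h₁ (hv₁ A c1)
      (loc4_mul ((pow_dvd_pow_of_dvd (dvd_mul_right r₁ r₂) 4).trans hG') hG₂) hV
    have l2 := loc4_piece (M := r₂) (r := p * r₁) (by ring) h₂ (hv₂ A c2)
      (loc4_mul ((pow_dvd_pow_of_dvd (dvd_mul_left r₂ r₁) 4).trans hG') hG₁) hV
    simp only [if_pos c0, if_pos c1, if_pos c2, one_mul]
    rw [← l0, ← l1, ← l2]
    generalize NN A (p * (r₁ * r₂)) * V = N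
    rw [mul_pow p, lb_crt (hp.pow 4) ((h₁.mul h₂).pow 4) (loc4_pw hG) (loc4_pw hG'), mul_pow r₁,
      lb_crt (h₁.pow 4) (h₂.pow 4) (loc4_pw hG₂) (loc4_pw hG₁), psi_add, psi_add, mul_pow (v p),
      mul_pow (v p), ← mul_assoc N, ← mul_assoc N, mul_assoc (psi _)]
  · have h0 : IsCoprime A p := by
      obtain ⟨t, ht⟩ := hU
      exact ⟨U, -t, by linear_combination ht⟩
    have h1 := (loc_cop y).2 h0
    have h2 := (loc_cop z).2 h0
    have h3 := (loc_cop z).2 h1
    obtain ⟨w, hw⟩ := vv_diff (B := p * (r₁ * r₂)) (u (r₁ * r₂)) hp hi (dvd_mul_right _ _)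
      (hu _ h0) (hu _ h1) (hu _ h2) (hu _ h3)
    have e1 : p ∣ u A - U := by
      refine h0.symm.dvd_of_dvd_mul_left ?_
      have := dvd_sub (p4.trans (hu A h0)) hU
      rwa [show A * u A - 1 - (A * U - 1) = A * (u A - U) by ring] at this
    have e3 : tau p (derivative p ^ 2 * u (r₁ * r₂) ^ 2 * u A * (y ^ 2 * z + y * z ^ 2)) =
        tau p (derivative p ^ 2 * u (r₁ * r₂) ^ 2 * U * (y ^ 2 * z + y * z ^ 2)) := by
      refine tau_congr hp ?_
      obtain ⟨a, ha⟩ := e1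
      exact ⟨derivative p ^ 2 * (y ^ 2 * z + y * z ^ 2) * u (r₁ * r₂) ^ 2 * a, by
        linear_combination derivative p ^ 2 * (y ^ 2 * z + y * z ^ 2) * u (r₁ * r₂) ^ 2 * ha⟩
    simp only [if_pos h0, if_pos h1, if_pos h2, if_pos h3, one_mul]
    rw [← e3, ← hw, psi_add, psi_add, psi_add, psi_add, loc_psi_as, mul_one]

end

section
variable {k : Type*} [Field k] [Fintype k] [CharP k 2]

omit [CharP k 2] in
theorem vdc3_bad {R : k[X] → Prop} {W : k[X]} {K e ρ : ℕ} (hK : K ≤ e)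
    (hR : ∀ x, #{s ∈ box k e | R (x - W * s)} ≤ ρ) (S : Finset k[X]) :
    𝔼 s ∈ box k K, (if ∃ a ∈ S, ∃ b ∈ S, R (a - (b + W * s)) then (1 : ℝ) else 0)
      ≤ ρ * (#S : ℝ) ^ 2 / 2 ^ K := by
  have hc : #{s ∈ box k K | ∃ a ∈ S, ∃ b ∈ S, R (a - (b + W * s))} ≤ ρ * #S ^ 2 := by
    have hsub : {s ∈ box k K | ∃ a ∈ S, ∃ b ∈ S, R (a - (b + W * s))} ⊆
        (S ×ˢ S).biUnion fun z => {s ∈ box k e | R (z.1 - z.2 - W * s)} := by
      intro s hs
      obtain ⟨h1, a, ha, b, hb, h2⟩ := mem_filter.1 hs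
      refine mem_biUnion.2 ⟨(a, b), mem_product.2 ⟨ha, hb⟩, mem_filter.2 ⟨?_, ?_⟩⟩
      · exact mem_box.2 ((mem_box.1 h1).trans_le (by exact_mod_cast hK))
      · show R (a - b - W * s)
        rwa [sub_sub]
    refine (card_le_card hsub).trans (card_biUnion_le.trans ?_)
    refine (sum_le_card_nsmul _ _ ρ fun z _ => hR _).trans ?_
    rw [card_product, smul_eq_mul, sq, mul_comm]
  rw [expect_eq_sum_div_card, sum_boole, card_box]
  have h2 : (2 : ℝ) ^ K ≤ qq k ^ K := pow_le_pow_left₀ (by norm_num) two_le_qq K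
  refine div_le_div₀ (by positivity) ?_ (by positivity) h2
  exact_mod_cast hc

omit [Fintype k] [CharP k 2] in
theorem vdc3_union {R : k[X] → Prop} {t : k[X]} {S : Finset k[X]} (h0 : R 0)
    (hn : ∀ t, R t → R (-t)) (hS : IncR R S) (hg : ¬ ∃ a ∈ S, ∃ b ∈ S, R (a - (b + t))) :
    IncR R (S ∪ S.image fun b => b + t) ∧ ∀ (Φ : k[X] → ℝ) (A : k[X]),
      ∏ a ∈ S ∪ S.image fun b => b + t, Φ (A + a) =
        (∏ a ∈ S, Φ (A + a)) * ∏ a ∈ S, Φ (A + t + a) := by
  refine ⟨fun a ha b hb hd => ?_, fun Φ A => ?_⟩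
  · rcases mem_union.1 ha with ha | ha <;> rcases mem_union.1 hb with hb | hb
    · exact hS a ha b hb hd
    · obtain ⟨b', hb', rfl⟩ := mem_image.1 hb
      exact absurd ⟨a, ha, b', hb', hd⟩ hg
    · obtain ⟨a', ha', rfl⟩ := mem_image.1 ha
      exact absurd ⟨b, hb, a', ha', by have := hn _ hd; rwa [neg_sub] at this⟩ hg
    · obtain ⟨a', ha', rfl⟩ := mem_image.1 ha
      obtain ⟨b', hb', rfl⟩ := mem_image.1 hb
      rw [add_sub_add_right_eq_sub] at hd
      rw [hS a' ha' b' hb' hd]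
  · rw [prod_union, prod_image fun a _ b _ h => add_right_cancel h]
    · congr 1
      exact prod_congr rfl fun a _ => by rw [add_assoc, add_comm t a]
    · refine disjoint_left.2 fun a ha hb => hg ?_
      obtain ⟨b', hb', rfl⟩ := mem_image.1 hb
      exact ⟨_, ha, b', hb', by rw [sub_self]; exact h0⟩

/-- The conclusion of the van der Corput argument for a class of weights. -/
def vdc3_OK {ι : Type} (ρ : ℕ) (Cl : (ι → k[X]) → (k[X] → ℝ) → Prop) : Prop :=
  ∀ (s : ℕ) (ε : ℝ), 0 < ε → ∃ (η : ℝ) (K s' : ℕ), 0 < η ∧ ∀ (W : ι → k[X]) (ϑ : k[X] → ℝ)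
    (R : k[X] → Prop) (e : ℕ) (Φ : k[X] → ℝ) (l : ℕ), K ≤ e → R 0 → (∀ t, R t → R (-t)) →
    (∀ i x, #{s ∈ box k e | R (x - W i * s)} ≤ ρ) →
    (∀ i, (W i).natDegree + K ≤ l) → Cl W ϑ → (∀ A, |Φ A| ≤ 1) →
    (∀ S : Finset k[X], S.Nonempty → #S ≤ s' → IncR R S →
      |𝔼 A ∈ box k l, ∏ a ∈ S, Φ (A + a)| ≤ η) →
    ∀ S : Finset k[X], S.Nonempty → #S ≤ s → IncR R S →
      |𝔼 A ∈ box k l, (∏ a ∈ S, Φ (A + a)) * ϑ A| ≤ ε

omit [CharP k 2] in
theorem vdc3_step {ι : Type} {ρ : ℕ} {Cl Cl' : (ι → k[X]) → (k[X] → ℝ) → Prop} (j : ι)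
    (h' : vdc3_OK ρ Cl')
    (h : ∀ W ϑ, Cl W ϑ → ∃ u g : k[X] → ℝ, (∀ A, ϑ A = u A * g A) ∧ (∀ A, |u A| ≤ 1) ∧
      (∀ A s, u (A + W j * s) = u A) ∧ (∀ A, |g A| ≤ 1) ∧
      ∀ s, Cl' W fun A => g A * g (A + W j * s)) : vdc3_OK ρ Cl := by
  intro s ε hε
  obtain ⟨η, K, s', hη, H⟩ := h' (2 * s) (ε ^ 2 / 2) (by positivity)
  obtain ⟨K0, hK0⟩ : ∃ K0 : ℕ, ρ * (s : ℝ) ^ 2 / 2 ^ K0 ≤ ε ^ 2 / 2 := by
    obtain ⟨n, hn⟩ := pow_unbounded_of_one_lt (ρ * (s : ℝ) ^ 2 / (ε ^ 2 / 2)) (one_lt_two (α := ℝ))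
    refine ⟨n, ?_⟩
    rw [div_lt_iff₀ (by positivity)] at hn
    rw [div_le_iff₀ (by positivity)]
    linarith
  refine ⟨η, max K K0, s', hη, fun W ϑ R e' Φ l hK h0 hn hW hl hC hΦ hH S hS hs hI => ?_⟩
  obtain ⟨u, g, e, hu, hi, hg, hC'⟩ := h W ϑ hC
  have hP : ∀ A, |∏ a ∈ S, Φ (A + a)| ≤ 1 := fun A => by
    rw [abs_prod]
    exact prod_le_one (fun _ _ => abs_nonneg _) fun _ _ => hΦ _
  have hG : ∀ A, |(∏ a ∈ S, Φ (A + a)) * g A| ≤ 1 := fun A => by
    rw [abs_mul]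
    exact mul_le_one₀ (hP A) (abs_nonneg _) (hg A)
  have cs := vdc_cs (K := K0) (l := l) (W := W j)
    (by have := hl j; have := le_max_right K K0; omega) u
    (fun A => (∏ a ∈ S, Φ (A + a)) * g A) hu hi
  have e1 : 𝔼 A ∈ box k l, (∏ a ∈ S, Φ (A + a)) * ϑ A
      = 𝔼 A ∈ box k l, u A * ((∏ a ∈ S, Φ (A + a)) * g A) :=
    expect_congr rfl fun A _ => by rw [e A]; ring
  have hb := vdc3_bad ((le_max_right K K0).trans hK) (hW j) S
  have hs2 : ρ * (#S : ℝ) ^ 2 / 2 ^ K0 ≤ ρ * (s : ℝ) ^ 2 / 2 ^ K0 := by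
    have : (#S : ℝ) ≤ s := by exact_mod_cast hs
    gcongr
  refine abs_le_of_sq_le_sq ?_ hε.le
  rw [e1]
  refine cs.trans ?_
  have h2 : ∀ t ∈ box k K0, 𝔼 A ∈ box k l, ((∏ a ∈ S, Φ (A + a)) * g A) *
      ((∏ a ∈ S, Φ (A + W j * t + a)) * g (A + W j * t)) ≤
      ε ^ 2 / 2 + (if ∃ a ∈ S, ∃ b ∈ S, R (a - (b + W j * t)) then (1 : ℝ) else 0) := by
    intro t _
    split_ifs with hbad
    · have : 𝔼 A ∈ box k l, ((∏ a ∈ S, Φ (A + a)) * g A) *
          ((∏ a ∈ S, Φ (A + W j * t + a)) * g (A + W j * t)) ≤ 1 :=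
        expect_le (box_nonempty l) fun A _ => (le_abs_self _).trans (by
          rw [abs_mul]
          exact mul_le_one₀ (hG A) (abs_nonneg _) (hG _))
      have h3 : 0 < ε ^ 2 / 2 := by positivity
      linarith
    · obtain ⟨hI', hpr⟩ := vdc3_union h0 hn hI hbad
      have := H W _ R e' Φ l ((le_max_left K K0).trans hK) h0 hn hW
        (fun i => by have := hl i; have := le_max_left K K0; omega) (hC' t) hΦ hH _
        (hS.mono subset_union_left)
        ((card_union_le _ _).trans (by have := card_image_le (s := S) (f := fun b => b + W j * t); omega))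
        hI'
      rw [add_zero]
      refine le_trans (le_of_eq (expect_congr rfl fun A _ => ?_)) ((le_abs_self _).trans this)
      rw [hpr]
      ring
  refine (expect_le_expect h2).trans ?_
  rw [expect_add_distrib, expect_const (box_nonempty K0)]
  linarith

theorem vdc3_all {ι : Type} [Fintype ι] (ρ N : ℕ) : ∀ d : ι → ℕ, ∑ i, d i = N →
    vdc3_OK ρ fun (W : ι → k[X]) (ϑ : k[X] → ℝ) => ∃ Θ : ι → k[X] → ℝ,
      (∀ i, vdcKD (d i) (W i) (Θ i)) ∧ ∀ A, ϑ A = ∏ i, Θ i A := by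
  induction N with
  | zero =>
    intro d hd s ε hε
    refine ⟨ε, 0, s, hε, fun W ϑ R e' Φ l _ _ _ _ _ hC _ hH S hS hs hI => ?_⟩
    obtain ⟨Θ, hΘ, e⟩ := hC
    have e1 : ∀ A, ϑ A = 1 := fun A => by
      rw [e A]
      refine prod_eq_one fun i _ => ?_
      have h0 : d i = 0 := (sum_eq_zero_iff.1 hd) i (mem_univ i)
      have := hΘ i
      rw [h0] at this
      exact this A
    simp only [e1, mul_one]
    exact hH S hS hs hI
  | succ N ih =>
    intro d hd
    obtain ⟨j, -, hj⟩ := exists_ne_zero_of_sum_ne_zero (s := univ) (f := d) (by omega)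
    obtain ⟨n, hn⟩ := Nat.exists_eq_succ_of_ne_zero hj
    have hsum : ∑ i, Function.update d j n i = N := by
      rw [sum_update_of_mem (mem_univ j)]
      rw [← add_sum_erase _ _ (mem_univ j), ← sdiff_singleton_eq_erase] at hd
      omega
    refine vdc3_step j (ih _ hsum) ?_
    rintro W ϑ ⟨Θ, hΘ, e⟩
    have hj' := hΘ j
    rw [hn] at hj'
    cases n with
    | zero =>
      have hk : ∀ i, vdcKD (Function.update d j 0 i) (W i) (Function.update Θ j (fun _ => 1) i) := by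
        intro i
        by_cases hi : i = j
        · subst hi
          rw [Function.update_self, Function.update_self]
          exact fun _ => rfl
        · rw [Function.update_of_ne hi, Function.update_of_ne hi]
          exact hΘ i
      refine ⟨Θ j, fun A => ∏ i, Function.update Θ j (fun _ => 1) i A, fun A => ?_,
        vdc_kill_abs (n := 0) hj', vdc_kill_zero hj', fun A => ?_, fun s =>
        ⟨_, fun i => vdc_kd_mul (hk i) (W j * s), fun A => prod_mul_distrib.symm⟩⟩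
      · rw [e A, ← mul_prod_erase _ _ (mem_univ j)]
        show _ = Θ j A * ∏ i, Function.update Θ j (fun _ => 1) i A
        rw [← mul_prod_erase _ _ (mem_univ j), Function.update_self, one_mul]
        congr 1
        exact prod_congr rfl fun i hi => by rw [Function.update_of_ne (ne_of_mem_erase hi)]
      · show |∏ i, Function.update Θ j (fun _ => 1) i A| ≤ 1
        rw [abs_prod]
        exact prod_le_one (fun _ _ => abs_nonneg _) fun i _ => vdc_kd_abs (hk i) A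
    | succ n =>
      refine ⟨fun _ => 1, fun A => ∏ i, Θ i A, fun A => by rw [e A, one_mul], fun _ => by simp,
        fun _ _ => rfl, fun A => ?_, fun s =>
        ⟨fun i A => Θ i A * Θ i (A + W j * s), fun i => ?_, fun A => prod_mul_distrib.symm⟩⟩
      · show |∏ i, Θ i A| ≤ 1
        rw [abs_prod]
        exact prod_le_one (fun _ _ => abs_nonneg _) fun i _ => vdc_kd_abs (hΘ i) A
      · by_cases hi : i = j
        · subst hi
          rw [Function.update_self]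
          exact vdc_kill_succ (n := n) hj' s
        · rw [Function.update_of_ne hi]
          exact vdc_kd_mul (hΘ i) _

theorem vdc3_row : VDC3_s k := by
  intro δ ρ ε hε
  obtain ⟨η, K, s', hη, H⟩ := vdc3_all (k := k) ρ _ (fun _ : Fin 3 => δ + 1) rfl 1 ε hε
  refine ⟨η, K, s', hη, fun W Θ R e Φ l hK h0 hn hW hl hΘ hΦ hH => ?_⟩
  have := H W (fun A => ∏ i, Θ i A) R e Φ l hK h0 hn hW hl ⟨Θ, hΘ, fun _ => rfl⟩ hΦ hH {0}
    (singleton_nonempty _) (by simp) (fun a ha b hb _ => by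
      rw [mem_singleton.1 ha, mem_singleton.1 hb])
  simpa only [prod_singleton, add_zero] using this

end

section
variable {k : Type*} [Field k] [Fintype k] [CharP k 2]

-- helper lemmas of this row: prefix kapg_

theorem kapg_poly {L ι : Type*} [Field L] {f : L[X]} {d : ℕ} (hf : f ≠ 0) (hd : f.natDegree ≤ d)
    {ρ : L} (hρ : f.eval ρ = 0) {S : Finset ι} (h0 : S.Nonempty) (c : ι → L)
    (hc : ∀ a ∈ S, ∀ b ∈ S, f.eval (ρ + (c a - c b)) = 0 → a = b) :
    ∃ Z : Finset L, #Z ≤ 2 * d * #S ∧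
      ∀ x, x ∉ Z → (∀ a ∈ S, f.eval (x + c a) ≠ 0) ∧ ∑ a ∈ S, (f.eval (x + c a))⁻¹ ≠ 0 := by
  let Q : L[X] := ∑ a ∈ S, ∏ b ∈ S.erase a, taylor (c b) f
  let P : L[X] := ∏ b ∈ S, taylor (c b) f
  have ev : ∀ x, Q.eval x = ∑ a ∈ S, ∏ b ∈ S.erase a, f.eval (x + c b) := fun x => by
    simp only [Q, eval_finsetSum, eval_prod, taylor_eval]
  have hP : P ≠ 0 := prod_ne_zero_iff.2 fun b _ e => hf ((taylor_eq_zero _ _).1 e)
  have hQ : Q ≠ 0 := by
    obtain ⟨a, ha⟩ := h0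
    intro e
    have := ev (ρ - c a)
    rw [e, eval_zero, sum_eq_single_of_mem a ha fun b hb hba =>
      prod_eq_zero (mem_erase.2 ⟨hba.symm, ha⟩) (by rw [sub_add_cancel, hρ])] at this
    obtain ⟨b, hb, hb'⟩ := prod_eq_zero_iff.1 this.symm
    refine (mem_erase.1 hb).1 (hc b (mem_erase.1 hb).2 a ha ?_)
    rw [← hb']
    congr 1
    ring
  have dT : ∀ T : Finset ι, (∏ b ∈ T, taylor (c b) f).natDegree ≤ d * #T := fun T => by
    refine (natDegree_prod_le _ _).trans ?_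
    simp only [natDegree_taylor, sum_const, smul_eq_mul]
    rw [mul_comm]
    exact Nat.mul_le_mul_right _ hd
  have dQ : Q.natDegree ≤ d * #S :=
    natDegree_sum_le_of_forall_le _ _ fun a _ => (dT _).trans (Nat.mul_le_mul_left _ card_erase_le)
  refine ⟨P.roots.toFinset ∪ Q.roots.toFinset, ?_, fun x hx => ?_⟩
  · have h1 := (Multiset.toFinset_card_le P.roots).trans ((card_roots' P).trans (dT S))
    have h2 := (Multiset.toFinset_card_le Q.roots).trans ((card_roots' Q).trans dQ)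
    have h3 := card_union_le P.roots.toFinset Q.roots.toFinset
    rw [mul_assoc]
    omega
  · rw [mem_union, not_or] at hx
    have h1 : ∀ a ∈ S, f.eval (x + c a) ≠ 0 := fun a ha e =>
      hx.1 (Multiset.mem_toFinset.2 ((mem_roots hP).2 (by
        rw [IsRoot, eval_prod]
        exact prod_eq_zero ha (by rw [taylor_eval, e]))))
    refine ⟨h1, fun e => hx.2 (Multiset.mem_toFinset.2 ((mem_roots hQ).2 ?_))⟩
    rw [IsRoot, ev, ← mul_zero (∏ b ∈ S, f.eval (x + c b)), ← e, mul_sum]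
    refine sum_congr rfl fun a ha => ?_
    rw [← mul_prod_erase S _ ha, mul_comm (f.eval (x + c a)), mul_assoc, mul_inv_cancel₀ (h1 a ha),
      mul_one]

omit [CharP k 2] in
theorem kapg_main {L : Type*} [Field L] (φ : k[X] →+* L) {p : k[X]} (hp : p.Monic)
    (hi : Irreducible p) (hφ : ∀ x, φ x = 0 ↔ p ∣ x) {f : L[X]} {d : ℕ} (hf : f ≠ 0)
    (hd : f.natDegree ≤ d) {ρ : L} (hρ : f.eval ρ = 0) (a : k[X] → k[X])
    (ha : ∀ σ, φ (a σ) = f.eval (φ σ)) : ∃ R : k[X] → Prop, R 0 ∧ (∀ t, R t → R (-t)) ∧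
    (∀ W x, ¬ p ∣ W → #{s ∈ box k p.natDegree | R (x - W * s)} ≤ d ^ 2) ∧
    ∀ (S : Finset k[X]) (l : ℕ), S.Nonempty → IncR R S → p.natDegree ≤ l →
      𝔼 σ ∈ box k l, (if ¬ Nd p a S σ then (1 : ℝ) else 0) ≤
        2 * d * (#S : ℝ) / qq k ^ p.natDegree := by
  refine ⟨fun t => ∃ r : L, f.eval r = 0 ∧ f.eval (r + φ t) = 0, ⟨ρ, hρ, by rwa [map_zero, add_zero]⟩,
    fun t ⟨r, h1, h2⟩ => ⟨r + φ t, h2, by rwa [map_neg, add_neg_cancel_right]⟩,
    fun W x hW => ?_, fun S l h0 hS hl => ?_⟩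
  · have hr : #f.roots.toFinset ≤ d := (Multiset.toFinset_card_le _).trans ((card_roots' f).trans hd)
    refine le_trans (card_le_card_of_injOn (t := (f.roots.toFinset ×ˢ f.roots.toFinset).image
      fun z => z.2 - z.1) (fun s => φ (x - W * s)) (fun s hs => ?_) fun s hs s' hs' e => ?_) ?_
    · obtain ⟨r, h1, h2⟩ := (mem_filter.1 hs).2
      exact mem_coe.2 (mem_image.2 ⟨(r, r + φ (x - W * s)), mem_product.2
        ⟨Multiset.mem_toFinset.2 ((mem_roots hf).2 h1),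
          Multiset.mem_toFinset.2 ((mem_roots hf).2 h2)⟩, add_sub_cancel_left _ _⟩)
    · have b1 := mem_box.1 (mem_filter.1 hs).1
      have b2 := mem_box.1 (mem_filter.1 hs').1
      have h1 : p ∣ W * (s' - s) := (hφ _).1 (by
        rw [show W * (s' - s) = (x - W * s) - (x - W * s') by ring, map_sub]
        exact sub_eq_zero.2 e)
      refine (sub_eq_zero.1 (eq_zero_of_dvd_of_degree_lt
        ((hi.prime.dvd_or_dvd h1).resolve_left hW) ?_)).symm
      rw [degree_eq_natDegree hp.ne_zero]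
      exact (degree_sub_le _ _).trans_lt (max_lt b2 b1)
    · refine card_image_le.trans ?_
      rw [card_product, sq]
      exact Nat.mul_le_mul hr hr
  obtain ⟨Z, hZ, hx⟩ := kapg_poly hf hd hρ h0 φ fun a ha b hb e =>
    hS a ha b hb ⟨ρ, hρ, by rwa [map_sub]⟩
  have hq : 0 < qq k ^ p.natDegree := pow_pos (by linarith [two_le_qq (k := k)]) _
  have inv : ∀ x : k[X], ∃ U, φ x ≠ 0 → p ∣ x * U - 1 := fun x => by
    by_cases h : p ∣ x
    · exact ⟨0, fun e => absurd ((hφ x).2 h) e⟩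
    · obtain ⟨u, w, e⟩ := hi.coprime_iff_not_dvd.2 h
      exact ⟨w, fun _ => ⟨-u, by linear_combination e⟩⟩
  choose U hU using inv
  calc _ ≤ 𝔼 σ ∈ box k l, ∑ z ∈ Z, (if φ σ = z then (1 : ℝ) else 0) := by
        refine expect_le_expect fun σ _ => ?_
        have nn : ∀ z ∈ Z, (0 : ℝ) ≤ if φ σ = z then (1 : ℝ) else 0 := fun z _ => by
          split_ifs <;> norm_num
        by_cases h : Nd p a S σ
        · rw [if_neg (not_not.2 h)]
          exact sum_nonneg nn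
        · rw [if_pos h]
          have hA : φ σ ∈ Z := by
            by_contra hA
            obtain ⟨h1, h2⟩ := hx _ hA
            have h3 : ∀ t ∈ S, p ∣ a (σ + t) * U (a (σ + t)) - 1 := fun t ht =>
              hU _ (by rw [ha, map_add]; exact h1 t ht)
            refine h ⟨fun t => U (a (σ + t)), h3, fun e => h2 ?_⟩
            rw [← (hφ _).2 e, map_sum]
            refine sum_congr rfl fun t ht => ?_
            have h4 := (hφ _).2 (h3 t ht)
            rw [map_sub, map_mul, map_one, ha, map_add, sub_eq_zero] at h4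
            exact (eq_inv_of_mul_eq_one_right h4).symm
          exact le_trans (le_of_eq (if_pos rfl).symm) (single_le_sum nn hA)
    _ ≤ ∑ z ∈ Z, 1 / qq k ^ p.natDegree := by
        rw [expect_sum_comm]
        refine sum_le_sum fun z _ => ?_
        by_cases h : ∃ y, φ y = z
        · obtain ⟨y, rfl⟩ := h
          rw [← exp_box_dvd hp.ne_zero hl isCoprime_one_left (-y)]
          refine le_of_eq (expect_congr rfl fun σ _ => if_congr ?_ rfl rfl)
          rw [← hφ, map_add, map_neg, one_mul, neg_add_eq_zero, eq_comm]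
        · rw [expect_eq_zero fun σ _ => if_neg fun e => h ⟨σ, e⟩]
          exact (one_div_pos.2 hq).le
    _ ≤ _ := by
        rw [sum_const, nsmul_eq_mul, mul_one_div]
        exact div_le_div_of_nonneg_right (by exact_mod_cast hZ) hq.le

theorem kapg_row : KAPG_s k := by
  intro p v E e hp hi hv hE
  have : Fact (Irreducible p) := ⟨hi⟩
  let φ : k[X] →+* AlgebraicClosure (AdjoinRoot p) :=
    (algebraMap (AdjoinRoot p) _).comp (AdjoinRoot.mk p)
  have hφ : ∀ x, φ x = 0 ↔ p ∣ x := fun x => by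
    rw [RingHom.comp_apply, map_eq_zero, AdjoinRoot.mk_eq_zero]
  have h1 : ((expand k[X] 2 E + C v * X).map φ).coeff 1 ≠ 0 := by
    rw [coeff_map, coeff_add, coeff_expand two_pos, if_neg (by norm_num), zero_add, coeff_C_mul,
      coeff_X_one, mul_one, Ne, hφ]
    exact hv
  have hf : (expand k[X] 2 E + C v * X).map φ ≠ 0 := fun h => h1 (by rw [h, coeff_zero])
  have hd : ((expand k[X] 2 E + C v * X).map φ).natDegree ≤ 2 * e + 1 := by
    refine natDegree_map_le.trans (natDegree_add_le_of_degree_le ?_ ?_)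
    · rw [natDegree_expand]
      omega
    · exact (natDegree_C_mul_le _ _).trans (natDegree_X_le.trans (by omega))
  obtain ⟨ρ, hρ⟩ := IsAlgClosed.exists_root ((expand k[X] 2 E + C v * X).map φ)
    (natDegree_pos_iff_degree_pos.1 (le_natDegree_of_ne_zero h1)).ne'
  have := kapg_main φ hp hi hφ hf hd hρ (pth E v) fun σ => by
    rw [eval_map, eval₂_at_apply, eval_add, expand_eval, eval_mul, eval_C, eval_X, pth]
  exact_mod_cast this

end

section
variable {k : Type*} [Field k] [Fintype k] [CharP k 2]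

theorem base3_row : BASE3_s k := by
  intro η hη
  obtain ⟨c, hc⟩ := pow_unbounded_of_one_lt (4 / η ^ 4) (one_lt_two (α := ℝ))
  refine ⟨c, fun p κ v a Φ l S hp hi hcp hκ hv hl hΦ hper hq hT => ?_⟩
  have h2 : (2 : k[X]) = 0 := CharTwo.two_eq_zero
  choose u hu using hT
  obtain ⟨m, hm⟩ : ∃ m : k[X] → k[X] → k[X], ∀ s t, m s t = v * t + u s * p * t ^ 2 :=
    ⟨_, fun _ _ => rfl⟩
  have ma : ∀ s a b, m s (a + b) = m s a + m s b := fun s a b => by
    rw [hm, hm, hm]; linear_combination (u s * p * a * b) * h2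
  have Lp : ∀ s x, Φ (a (s + p * x)) = Φ (a s + p * m s x) := fun s x => by
    obtain ⟨w, hw⟩ := hu s (p * x)
    rw [hw, hm, ← hper (a s + p * (v * x + u s * p * x ^ 2)) (x ^ 4 * w)]
    congr 1
    ring
  have hq2 := two_le_qq (k := k)
  have hQ : 4 / η ^ 4 ≤ qq k ^ p.natDegree :=
    hc.le.trans ((pow_le_pow_right₀ one_le_two hcp).trans (pow_le_pow_left₀ zero_le_two hq2 _))
  have hQ0 : 0 < qq k ^ p.natDegree := by positivity
  have hQ1 : 4 / qq k ^ p.natDegree ≤ η ^ 4 := by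
    rw [div_le_iff₀ (by positivity)] at hQ
    rw [div_le_iff₀ hQ0]
    linarith
  have hΦ1 : ∀ A, |Φ A| = 1 := fun A => by
    rcases mul_self_eq_one_iff.1 (hΦ A) with h | h <;> simp [h]
  have hdeg : ∀ x ∈ box k p.natDegree, (p * x).degree < (l : ℕ) := fun x hx =>
    vdc_deg (K := p.natDegree) (by omega) hx
  have e1 : 𝔼 σ ∈ box k l, ∏ t ∈ S, Φ (a (σ + t)) =
      𝔼 σ ∈ box k l, 𝔼 x ∈ box k p.natDegree, ∏ t ∈ S, Φ (a (σ + t) + p * m (σ + t) x) := by
    have e0 : ∀ x ∈ box k p.natDegree, 𝔼 σ ∈ box k l, ∏ t ∈ S, Φ (a (σ + t) + p * m (σ + t) x) =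
        𝔼 σ ∈ box k l, ∏ t ∈ S, Φ (a (σ + t)) := fun x hx => by
      rw [← exp_box_shift (hdeg x hx) fun σ => ∏ t ∈ S, Φ (a (σ + t))]
      exact expect_congr rfl fun σ _ => prod_congr rfl fun t _ => by rw [← Lp, add_right_comm]
    rw [Finset.expect_comm, Finset.expect_congr rfl e0, Finset.expect_const (box_nonempty _)]
  have e2 : ∀ σ : k[X], |𝔼 x ∈ box k p.natDegree, ∏ t ∈ S, Φ (a (σ + t) + p * m (σ + t) x)| ≤
      η + (if ¬ Nd p a S σ then (1 : ℝ) else 0) := by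
    intro σ
    split_ifs with h
    · obtain ⟨U, hU, hU'⟩ := h
      have hκ' : ¬ p ∣ κ * v ^ 3 * ∑ a ∈ S, U a := fun h =>
        (hi.prime.dvd_or_dvd h).elim (fun h => (hi.prime.dvd_or_dvd h).elim hκ
          fun h => hv (hi.prime.dvd_of_dvd_pow h)) hU'
      have h4 := (quad_le (J := p.natDegree) (fun x => ∏ t ∈ S, Φ (a (σ + t) + p * m (σ + t) x))
        (fun y z => psi (tau p ((κ * v ^ 3 * ∑ a ∈ S, U a) * (y ^ 2 * z + y * z ^ 2))))
        fun x _ y _ z _ => ?_).trans ((rad_le hp hi hκ').trans hQ1)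
      · rw [add_zero]
        refine le_of_pow_le_pow_left₀ (n := 4) (by norm_num) (by positivity) ?_
        rwa [← abs_pow, abs_of_nonneg (by positivity)]
      · rw [Finset.mul_sum, Finset.sum_mul, ← base_prod, ← Finset.prod_mul_distrib,
          ← Finset.prod_mul_distrib, ← Finset.prod_mul_distrib]
        refine Finset.prod_congr rfl fun t ht => ?_
        have hU0 := hU t ht
        generalize σ + t = s at *
        have hd : p ∣ (a s + p * m s x) * U t - 1 := by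
          rw [show (a s + p * m s x) * U t - 1 = a s * U t - 1 + p * (m s x * U t) by ring]
          exact dvd_add hU0 (dvd_mul_right _ _)
        have ht : tau p (κ * v ^ 3 * U t * (y ^ 2 * z + y * z ^ 2)) =
            tau p (κ * U t * (m s y ^ 2 * m s z + m s y * m s z ^ 2)) := by
          refine tau_congr hp ?_
          have g : ∀ t, v * t ≡ m s t [SMOD Ideal.span {p}] := fun t =>
            SModEq.sub_mem.2 (Ideal.mem_span_singleton.2 ⟨-(u s * t ^ 2), by rw [hm]; ring⟩)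
          have := SModEq.sub_mem.1 ((SModEq.refl (κ * U t)).mul
            ((((g y).pow 2).mul (g z)).add ((g y).mul ((g z).pow 2))))
          rw [Ideal.mem_span_singleton] at this
          rwa [show κ * U t * ((v * y) ^ 2 * (v * z) + v * y * (v * z) ^ 2) =
            κ * v ^ 3 * U t * (y ^ 2 * z + y * z ^ 2) by ring] at this
        rw [ht, ← hq _ (m s y) (m s z) _ hd, ma, ma, ma, ma, mul_add, mul_add, mul_add, mul_add,
          ← add_assoc, ← add_assoc, ← add_assoc, ← add_assoc]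
    · refine (Finset.abs_expect_le _ _).trans ?_
      rw [Finset.expect_congr rfl fun x _ => (Finset.abs_prod _ _).trans
        (Finset.prod_eq_one fun a _ => hΦ1 _), Finset.expect_const (box_nonempty _)]
      linarith
  rw [e1]
  refine (Finset.abs_expect_le _ _).trans ((Finset.expect_le_expect fun σ _ => e2 σ).trans ?_)
  rw [Finset.expect_add_distrib, Finset.expect_const (box_nonempty _)]

omit [Fintype k] in
theorem pth_sum {ι : Type*} (s : Finset ι) {n : ℕ} (F : ι → k[X] → k[X])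
    (h : ∀ i ∈ s, PDeg n (F i)) : PDeg n fun x => ∑ i ∈ s, F i x := by
  induction s using Finset.induction_on with
  | empty => simpa using PDeg.const n (0 : k[X])
  | insert a s ha ih =>
    simp only [sum_insert ha]
    exact (h a (mem_insert_self _ _)).add (ih fun i hi => h i (mem_insert_of_mem hi))

theorem pth_row : PTH_s k := by
  intro E v e he
  refine ⟨fun σ => ⟨E.derivative.eval (σ ^ 2), fun y => ?_⟩, ?_⟩
  · obtain ⟨x, hx⟩ := E.binomExpansion (σ ^ 2) (y ^ 2)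
    exact ⟨x, by rw [pth, pth, CharTwo.add_sq, hx]; ring⟩
  · refine PDeg.add (pdeg_congr (pth_sum (range (E.natDegree + 1))
      (fun i σ => E.coeff i * σ ^ (2 * i)) fun i hi => ?_) fun σ => ?_) ?_
    · have := mem_range.1 hi
      exact ((PDeg.const 0 (E.coeff i)).mul (a1_pow PDeg.id (2 * i))).mono (by omega)
    · rw [eval_eq_sum_range]
      exact sum_congr rfl fun i _ => by rw [pow_mul]
    · exact ((PDeg.const 0 v).mul PDeg.id).mono (by omega)

theorem shf_row : SHF_s k := by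
  intro Q f w D
  refine ⟨C w * X * (divX (taylor f Q)).comp (C (D * w) * X), ?_, fun y => ?_⟩
  · have h1 := natDegree_mul_le (p := C w * X) (q := (divX (taylor f Q)).comp (C (D * w) * X))
    have h2 : (C w * X : k[X][X]).natDegree ≤ 1 := (natDegree_C_mul_le _ _).trans natDegree_X_le
    have h3 : (C (D * w) * X : k[X][X]).natDegree ≤ 1 :=
      (natDegree_C_mul_le _ _).trans natDegree_X_le
    have h4 := natDegree_comp_le (p := divX (taylor f Q)) (q := C (D * w) * X)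
    have h5 := natDegree_divX_le (p := taylor f Q)
    rw [natDegree_taylor] at h5
    have h6 := Nat.mul_le_mul h5 h3
    omega
  · have h := congrArg (eval (D * w * y)) (X_mul_divX_add (taylor f Q))
    rw [taylor_eval, taylor_coeff_zero, add_comm (D * w * y) f] at h
    rw [← h]
    simp only [eval_add, eval_mul, eval_X, eval_C, eval_comp]
    ring

end

section
variable {k : Type*} [Field k] [Fintype k] [CharP k 2]

-- helper lemmas of this row: prefix line2_

theorem line2_kill {n m : ℕ} {W v : k[X]} {Θ : k[X] → ℝ} {a : k[X] → k[X]} (h : Kill n W Θ)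
    (hnm : n ≤ m) (hper : ∀ A x, Θ (A + W ^ 4 * x) = Θ A) (ha : Tay v a) :
    Kill m W fun s => Θ (a s) := by
  intro s
  have h2 : (2 : k[X]) = 0 := CharTwo.two_eq_zero
  obtain ⟨u, hu⟩ := ha s
  obtain ⟨c, F, hc, hF, e⟩ := h (a s)
  refine ⟨c, fun y => F (v * y + u * W * y ^ 2), hc, (hF.comp _ fun y z => ?_).mono hnm,
    fun y => ?_⟩
  · linear_combination (u * W * y * z) * h2
  · obtain ⟨x, hx⟩ := hu (W * y)
    beta_reduce
    rw [← e, hx, ← hper (a s + W * (v * y + u * W * y ^ 2)) (y ^ 4 * x)]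
    exact congrArg Θ (by ring)

omit [CharP k 2] in
theorem line2_mono {n m : ℕ} {W : k[X]} {Θ : k[X] → ℝ} (h : Kill n W Θ) (hnm : n ≤ m) :
    Kill m W Θ := by
  intro A
  obtain ⟨c, F, hc, hF, e⟩ := h A
  exact ⟨c, F, hc, hF.mono hnm, e⟩

omit [Fintype k] [CharP k 2] in
theorem line2_inv {A B : k[X]} (h : IsCoprime A B) :
    ∃ V, B ^ 4 ∣ (A ^ 2 + X * B ^ 2) * V - 1 := by
  have c1 : IsCoprime (A ^ 2 + X * B ^ 2) (B ^ 4) := by
    refine IsCoprime.pow_right ?_
    rw [sq B, ← mul_assoc]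
    exact h.pow_left.add_mul_right_left _
  obtain ⟨V, s, hs⟩ := c1
  exact ⟨V, -s, by linear_combination hs⟩

omit [CharP k 2] in
theorem line2_small (a : ℝ) {η : ℝ} (hη : 0 < η) :
    ∃ L : ℕ, ∀ n, L ≤ n → a / qq k ^ n ≤ η := by
  obtain ⟨L, hL⟩ := pow_unbounded_of_one_lt (a / η) (one_lt_two (α := ℝ))
  refine ⟨L, fun n hn => ?_⟩
  have h2 : (2 : ℝ) ≤ qq k := two_le_qq
  have h3 : (2 : ℝ) ^ L ≤ qq k ^ n :=
    (pow_le_pow_right₀ one_le_two hn).trans (pow_le_pow_left₀ (by norm_num) h2 n)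
  rw [div_le_iff₀ (by positivity), ← div_le_iff₀' hη]
  exact hL.le.trans h3

theorem line2_row (hPTH : PTH_s k) (hINF2 : INF2_s k) (hLOC4 : LOC4_s k) (hVDC3 : VDC3_s k) (hKAPG : KAPG_s k) (hBASE3 : BASE3_s k) : LINE2_s k := by
  intro j e ε hε
  obtain ⟨η, K, s', hη, H⟩ := hVDC3 ((2 * e + 1) * (2 * 2 ^ j + 4) + 18) ((2 * e + 1) ^ 2) ε hε
  obtain ⟨c, hc⟩ := hBASE3 (η / 2) (half_pos hη)
  obtain ⟨L₁, hL₁⟩ := line2_small (k := k) (2 * (2 * e + 1) * (s' : ℝ)) (half_pos hη)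
  refine ⟨max K (max c L₁), K, fun E B v Δ M l₀ l g hE hG huv hl hM hBA hdeg hj => ?_⟩
  obtain ⟨β, p, r₁, r₂, hβ, rfl, hp, hi, h₁, h₂, hco, hpr, hpΔ, hL, hpM, hr₁, hr₂⟩ := hG
  have hCβ : (C β : k[X]) ≠ 0 := C_ne_zero.2 hβ
  have hone : (C β : k[X]) * C β⁻¹ = 1 := by rw [← C_mul, mul_inv_cancel₀ hβ, C_1]
  obtain ⟨E, rfl⟩ : ∃ E' : k[X][X], E = C (C β) * E' :=
    ⟨C (C β⁻¹) * E, by rw [← mul_assoc, ← C_mul, hone, C_1, one_mul]⟩
  obtain ⟨v, rfl⟩ : ∃ v' : k[X], v = C β * v' := ⟨C β⁻¹ * v, by rw [← mul_assoc, hone, one_mul]⟩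
  have hsc : ∀ σ, pth (C (C β) * E) (C β * v) σ = C β * pth E v σ := fun σ => by
    simp only [pth, eval_mul, eval_C]
    ring
  rw [natDegree_C_mul hCβ] at hE
  simp only [hsc, ← mul_sub, natDegree_C_mul hβ] at hBA hdeg hj ⊢
  have hv : ¬ p ∣ v := fun h => hpΔ ((h.mul_left _).trans huv)
  have hB : (p * (r₁ * r₂)).Monic := hp.mul (h₁.mul h₂)
  obtain ⟨hT, hD⟩ := hPTH E v e hE
  obtain ⟨R, R0, Rn, Rc, Rk⟩ := hKAPG p v E e hp hi hv hE
  obtain ⟨Θ, hΘ, eΘ⟩ := hINF2 j (pth E v 0) _ hB hBA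
  obtain ⟨Φ, Θ₁, Θ₂, κ, hΦ, k₁, k₂, hκ, p₀, p₁, p₂, eΦ, qΦ⟩ := hLOC4 p r₁ r₂ hp hi h₁ h₂ hco hpr
  have aΦ : ∀ A, |Φ A| ≤ 1 := fun A => by
    rcases mul_self_eq_one_iff.1 (hΦ A) with h | h <;> simp [h]
  have kk : ∀ i : Fin 3, Kill ((2 * e + 1) * (2 * 2 ^ j + 4) + 18) (![r₁, r₂, 1] i)
      (![fun s => Θ₁ (pth E v s), fun s => Θ₂ (pth E v s), fun s => Θ (pth E v s)] i) := fun i => by
    have a₁ := line2_kill k₁ (Nat.le_add_left 18 ((2 * e + 1) * (2 * 2 ^ j + 4))) p₁ hT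
    have a₂ := line2_kill k₂ (Nat.le_add_left 18 ((2 * e + 1) * (2 * 2 ^ j + 4))) p₂ hT
    have a₃ := line2_mono (hΘ _ _ hD) (Nat.le_add_right _ 18)
    fin_cases i
    · exact a₁
    · exact a₂
    · exact a₃
  have hKp : K ≤ p.natDegree := (le_max_left _ _).trans hL
  have hcp : c ≤ p.natDegree := ((le_max_left _ _).trans (le_max_right _ _)).trans hL
  have hLp : L₁ ≤ p.natDegree := ((le_max_right _ _).trans (le_max_right _ _)).trans hL
  have main := H ![r₁, r₂, 1] _ R p.natDegree (fun s => Φ (pth E v s)) l hKp R0 Rn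
    (fun i x => Rc _ x ?_) (fun i => ?_) kk (fun s => aΦ _) (fun S hS hs hI => ?_)
  · refine (core_err (K := 1) (box k l) _ _ (fun _ σ =>
      ¬ IsCoprime (C β * pth E v σ) (C β * (p * (r₁ * r₂))))
      (fun σ => (abs_lam _).le) (fun σ => ?_) (fun σ hσ hP => ?_) main).trans (le_of_eq ?_)
    · rw [abs_mul, abs_prod]
      exact mul_le_one₀ (aΦ _) (prod_nonneg fun i _ => abs_nonneg _)
        (prod_le_one (fun i _ => abs_nonneg _) fun i _ => core_kill_abs (kk i) σ)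
    · have h0 := not_not.1 (hP 0)
      obtain ⟨V, hV⟩ := line2_inv h0.of_mul_left_right.of_mul_right_right
      have hne := locd_ne (pth E v σ) hB.ne_zero
      have e0 := eΘ (pth E v σ - pth E v 0) V g (hdeg σ hσ) hj
      rw [add_sub_cancel] at e0
      rw [show (C β * pth E v σ) ^ 2 + X * (C β * (p * (r₁ * r₂))) ^ 2 =
          C β * (C β * (pth E v σ ^ 2 + X * (p * (r₁ * r₂)) ^ 2)) by ring,
        lam_mul hCβ (mul_ne_zero hCβ hne), lam_mul hCβ hne, ← mul_assoc, lam_mul_self, one_mul,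
        e0 hV, eΦ _ V hV, Fin.prod_univ_three]
      simp only [Matrix.cons_val_zero, Matrix.cons_val_one, Matrix.cons_val_two, Matrix.head_cons,
        Matrix.tail_cons]
      ring
    · rw [Fin.sum_univ_one]
      refine congrArg (fun t => ε + 2 * t) (expect_congr rfl fun σ _ => ?_)
      by_cases h : IsCoprime (C β * pth E v σ) (C β * (p * (r₁ * r₂)))
      · rw [if_neg (not_not.2 h), if_neg (not_not.2 h)]
      · rw [if_pos h, if_pos h]
  · fin_cases i
    · exact fun h => hpr (Dvd.dvd.mul_right h r₂)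
    · exact fun h => hpr (Dvd.dvd.mul_left h r₁)
    · exact fun h => hi.not_isUnit (isUnit_of_dvd_one h)
  · fin_cases i
    · show r₁.natDegree + K ≤ l
      omega
    · show r₂.natDegree + K ≤ l
      omega
    · show (1 : k[X]).natDegree + K ≤ l
      rw [natDegree_one]; omega
  · have b1 := hc p κ v (pth E v) Φ l S hp hi hcp hκ hv (by omega) hΦ p₀ qΦ hT
    have b2 := Rk S l hS hI (by omega)
    have b3 := hL₁ _ hLp
    have b4 : 2 * (2 * e + 1) * (#S : ℝ) / qq k ^ p.natDegree ≤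
        2 * (2 * e + 1) * (s' : ℝ) / qq k ^ p.natDegree := by
      have q2 : (2 : ℝ) ≤ qq k := two_le_qq
      have hs' : (#S : ℝ) ≤ s' := by exact_mod_cast hs
      gcongr
    exact b1.trans (by linarith)

end

section
variable {k : Type*} [Field k] [Fintype k] [CharP k 2]

omit [Fintype k] [CharP k 2] in
theorem lined2_piece {x r : k[X]} (hr : r.Monic) (h : x ∣ r) : ∃ x' r' : k[X], x'.Monic ∧
    r'.Monic ∧ Associated x' x ∧ r = x' * r' ∧ r'.natDegree ≤ r.natDegree := by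
  have h0 : x ≠ 0 := fun e => hr.ne_zero (zero_dvd_iff.1 (e ▸ h))
  have hm : (normalize x).Monic := monic_normalize h0
  obtain ⟨r', hr'⟩ := (normalize_associated x).dvd.trans h
  exact ⟨_, r', hm, hm.of_mul_monic_left (hr' ▸ hr), normalize_associated x, hr',
    natDegree_le_of_dvd ⟨normalize x, by rw [hr', mul_comm]⟩ hr.ne_zero⟩

omit [Fintype k] [CharP k 2] in
theorem lined2_good {L M l : ℕ} {Δ d B : k[X]} (hd : d.Monic) (hΔ : d ∣ Δ)
    (h : Good L M l Δ (d * B)) : Good L M l Δ B := by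
  obtain ⟨β, p, r₁, r₂, hβ, hB, hp, hi, h1, h2, hc, hn, hnΔ, hL, hM, l1, l2⟩ := h
  have hpd : IsCoprime d p := ((hi.coprime_iff_not_dvd).2 fun h => hnΔ (h.trans hΔ)).symm
  have hu : IsUnit (C β : k[X]) := isUnit_C.2 hβ.isUnit
  have hdv : d ∣ r₁ * r₂ :=
    hpd.dvd_of_dvd_mul_left (hu.dvd_mul_left.1 (hB ▸ dvd_mul_right d B))
  obtain ⟨d₁, d₂, a1, a2, hdd⟩ := exists_dvd_and_dvd_of_dvd_mul hdv
  obtain ⟨x₁, s₁, m1, n1, as1, e1, g1⟩ := lined2_piece h1 a1
  obtain ⟨x₂, s₂, m2, n2, as2, e2, g2⟩ := lined2_piece h2 a2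
  have hx : x₁ * x₂ = d :=
    eq_of_monic_of_associated (m1.mul m2) hd (hdd ▸ as1.mul_mul as2)
  refine ⟨β, p, s₁, s₂, hβ, mul_left_cancel₀ hd.ne_zero ?_, hp, hi, n1, n2, ?_, fun h => hn ?_,
    hnΔ, hL, hM, g1.trans l1, g2.trans l2⟩
  · rw [hB, e1, e2, ← hx]; ring
  · rw [e1, e2] at hc
    exact hc.of_mul_left_right.of_mul_right_right
  · rw [e1, e2]
    exact h.trans ⟨x₁ * x₂, by ring⟩

theorem lined2_row (hLINE2 : LINE2_s k) : LINED2_s k := by
  intro j e ε hε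
  obtain ⟨L, K, H⟩ := hLINE2 j e ε hε
  refine ⟨L, K, fun E A B v D M l₀ l g hE hG hl hM hB hD hσ h6 => ?_⟩
  have hD0 : D ≠ 0 := by
    obtain ⟨β, p, r₁, r₂, -, -, -, -, -, -, -, -, hnΔ, -⟩ := hG
    rintro rfl
    exact hnΔ (by rw [mul_zero]; exact dvd_zero p)
  have hB0 : B ≠ 0 := by
    obtain ⟨β, p, r₁, r₂, hβ, hB, hp, -, h1, h2, -⟩ := hG
    rw [hB]
    exact mul_ne_zero (C_ne_zero.2 hβ) (hp.mul (h1.mul h2)).ne_zero
  have hg : gcd B D ≠ 0 := fun h0 => hB0 ((gcd_eq_zero_iff _ _).1 h0).1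
  have hd : gcd A (gcd B D) ≠ 0 := fun h0 => hg ((gcd_eq_zero_iff _ _).1 h0).2
  have hm : (gcd A (gcd B D)).Monic := by
    rw [← _root_.normalize_gcd]; exact monic_normalize hd
  have hgcd : ∀ x, x ∣ A → x ∣ B → x ∣ D → x ∣ gcd A (gcd B D) := fun x h1 h2 h3 =>
    dvd_gcd h1 (dvd_gcd h2 h3)
  obtain ⟨A₁, hA₁⟩ := gcd_dvd_left A (gcd B D)
  obtain ⟨D₁, hD₁⟩ := (gcd_dvd_right A (gcd B D)).trans (gcd_dvd_right B D)
  obtain ⟨B₁, hB₁⟩ := (gcd_dvd_right A (gcd B D)).trans (gcd_dvd_left B D)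
  generalize gcd A (gcd B D) = d at hd hm hgcd hA₁ hD₁ hB₁
  subst hA₁ hD₁ hB₁
  have hB1 : B₁ ≠ 0 := right_ne_zero_of_mul hB0
  have hp : ∀ σ, pth (C A₁ + C D₁ * E) (D₁ * v) σ = A₁ + D₁ * pth E v σ := fun σ => by
    simp only [pth, eval_add, eval_mul, eval_C]
    ring
  have hq : ∀ σ, d * A₁ + d * D₁ * pth E v σ = d * (A₁ + D₁ * pth E v σ) := fun σ => by ring
  simp only [hq] at hB hD hσ h6 ⊢
  have h0 : A₁ + D₁ * pth E v 0 ≠ 0 := fun h => by
    rw [h, mul_zero, natDegree_zero] at hB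
    omega
  rw [natDegree_mul hd h0] at hB hD hσ h6
  rw [natDegree_mul hd hB1] at hB
  rw [natDegree_mul hd (right_ne_zero_of_mul hD0)] at hD
  have key := H (C A₁ + C D₁ * E) B₁ (D₁ * v) (v * (d * D₁)) M l₀ l g
    (natDegree_add_le_of_degree_le (by rw [natDegree_C]; omega)
      ((natDegree_C_mul_le _ _).trans hE))
    (lined2_good hm ⟨v * D₁, by ring⟩ hG) ⟨d, by ring⟩ hl hM (by rw [hp]; omega)
    (fun σ h => by
      have h1 := hσ σ h
      rw [hp, hp]
      rw [show d * D₁ * pth E v σ - d * D₁ * pth E v 0 =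
        d * (A₁ + D₁ * pth E v σ - (A₁ + D₁ * pth E v 0)) by ring] at h1
      by_cases h2 : A₁ + D₁ * pth E v σ - (A₁ + D₁ * pth E v 0) = 0
      · rw [h2, natDegree_zero]
        omega
      · rw [natDegree_mul hd h2] at h1
        omega)
    (by rw [hp]; omega)
  simp only [hp] at key
  have e1 : ∀ σ, lam ((d * (A₁ + D₁ * pth E v σ)) ^ 2 + X * (d * B₁) ^ 2) =
      lam ((A₁ + D₁ * pth E v σ) ^ 2 + X * B₁ ^ 2) := fun σ => by
    have hne := locd_ne (A₁ + D₁ * pth E v σ) hB1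
    rw [show (d * (A₁ + D₁ * pth E v σ)) ^ 2 + X * (d * B₁) ^ 2 =
      d * (d * ((A₁ + D₁ * pth E v σ) ^ 2 + X * B₁ ^ 2)) by ring,
      lam_mul hd (mul_ne_zero hd hne), lam_mul hd hne, ← mul_assoc, lam_mul_self, one_mul]
  simp only [e1]
  refine key.trans (add_le_add le_rfl (mul_le_mul_of_nonneg_left
    (expect_le_expect fun σ _ => ?_) (by norm_num)))
  by_cases hc : Cmn (d * D₁) (d * (A₁ + D₁ * pth E v σ)) (d * B₁)
  · have : IsCoprime (A₁ + D₁ * pth E v σ) B₁ := by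
      refine IsRelPrime.isCoprime fun x h1 h2 => ?_
      have h3 : d * x ∣ d * D₁ := hc _ (mul_dvd_mul_left d h1) (mul_dvd_mul_left d h2)
      have h4 : x ∣ D₁ := (mul_dvd_mul_iff_left hd).1 h3
      have h5 : x ∣ A₁ := (dvd_add_left (h4.mul_right _)).1 h1
      have h6 : d * x ∣ d * 1 := by
        rw [mul_one]
        exact hgcd _ (mul_dvd_mul_left d h5) (mul_dvd_mul_left d h2) h3
      exact isUnit_of_dvd_one ((mul_dvd_mul_iff_left hd).1 h6)
    rw [if_neg (not_not.2 this), if_neg (not_not.2 hc)]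
  · rw [if_pos hc]
    split_ifs <;> norm_num

end

end Pool.Agent.MP_a4a062_nt.Q58
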