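import Pool.Agent.MP_a4a062_nt.Q58.Defs2

set_option autoImplicit false

open Polynomial Finset Filter
open scoped Classical BigOperators

noncomputable section
namespace Pool.Agent.MP_a4a062_nt.Q58
open Pool.Agent.MP_a4a062_nt.C2

section
variable {k : Type*} [Field k] [Fintype k] [CharP k 2]

theorem split_row : SPLIT_s k := by
  intro r c T h0 hT hc
  induction r using UniqueFactorizationMonoid.induction_on_coprime generalizing T with
  | h0 => exact absurd rfl h0
  | h1 hx =>
    exact ⟨1, _, (one_mul _).symm, isCoprime_one_left, by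
      rw [natDegree_eq_zero_of_isUnit hx] at hT; simpa using hT, by simp⟩
  | @hpr p i hp =>
    rcases Nat.eq_zero_or_pos T with rfl | T0
    · exact ⟨1, _, (one_mul _).symm, isCoprime_one_left, by simp, by simp⟩
    · refine ⟨_, 1, (mul_one _).symm, isCoprime_one_right, hT, ?_⟩
      have := hc p i hp.irreducible dvd_rfl
      rw [natDegree_pow]
      omega
  | @hcp x y hxy ihx ihy =>
    have x0 := left_ne_zero_of_mul h0
    have y0 := right_ne_zero_of_mul h0
    have co : IsCoprime x y := hxy.isCoprime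
    rw [natDegree_mul x0 y0] at hT
    rcases le_total T x.natDegree with g | g
    · obtain ⟨a, b, e, h1, h2, h3⟩ := ihx T x0 g fun π i hπ hd => hc π i hπ (hd.mul_right _)
      subst e
      exact ⟨a, b * y, mul_assoc _ _ _, h1.mul_right co.of_mul_left_left, h2, h3⟩
    · obtain ⟨a, b, e, h1, h2, h3⟩ := ihy (T - x.natDegree) y0 (by omega)
        fun π i hπ hd => hc π i hπ (hd.mul_left _)
      subst e
      have a0 := left_ne_zero_of_mul y0
      refine ⟨x * a, b, (mul_assoc _ _ _).symm, co.of_mul_right_right.mul_left h1, ?_, ?_⟩ <;>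
        rw [natDegree_mul x0 a0] <;> omega

end

section
variable {k : Type*} [Field k] [Fintype k] [CharP k 2]

theorem boxm_step (P : k[X] → Prop) (m : ℕ)
    (hP : ∀ (u : k) (f : k[X]), u ≠ 0 → P (C u * f) → P f) :
    (#{f ∈ box k (m + 1) | P f} : ℝ) ≤
      #{f ∈ box k m | P f} + (qq k - 1) * #{f ∈ mon k m | P f} := by
  have h : {f ∈ box k (m + 1) | P f} ⊆ {f ∈ box k m | P f} ∪
      ((univ.erase (0 : k)) ×ˢ {f ∈ mon k m | P f}).image fun z => C z.1 * z.2 := by
    intro f hf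
    obtain ⟨h1, h2⟩ := mem_filter.1 hf
    by_cases g : f.degree < m
    · exact mem_union_left _ (mem_filter.2 ⟨mem_box.2 g, h2⟩)
    · have f0 : f ≠ 0 := fun e => g (by simp [e])
      have l0 := leadingCoeff_ne_zero.2 f0
      have e : C f.leadingCoeff * (f * C f.leadingCoeff⁻¹) = f := by
        rw [mul_comm f, ← mul_assoc, ← C_mul, mul_inv_cancel₀ l0, C_1, one_mul]
      have d : f.natDegree = m := by
        rw [mem_box, ← natDegree_lt_iff_degree_lt f0] at h1
        rw [← natDegree_lt_iff_degree_lt f0] at g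
        omega
      refine mem_union_right _ (mem_image.2 ⟨(f.leadingCoeff, f * C f.leadingCoeff⁻¹),
        mem_product.2 ⟨by simpa using f0, mem_filter.2 ⟨mem_mon.2
          ⟨monic_mul_leadingCoeff_inv f0, ?_⟩, hP _ _ l0 (by rwa [e])⟩⟩, e⟩)
      rw [natDegree_mul_leadingCoeff_inv _ f0, d]
  have h2 := (card_le_card h).trans ((card_union_le _ _).trans
    (Nat.add_le_add_left card_image_le _))
  rw [card_product, card_erase_of_mem (mem_univ _), card_univ] at h2
  have h3 : ((Fintype.card k - 1 : ℕ) : ℝ) = qq k - 1 := by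
    rw [Nat.cast_sub Fintype.card_pos, Nat.cast_one, qq]
  rw [← h3]
  exact_mod_cast h2

theorem boxm_row : BOXM_s k := by
  intro P M c ε e0 hc hP H
  have q2 := two_le_qq (k := k)
  obtain ⟨N, rfl⟩ := Nat.exists_eq_add_of_le' hc
  have key : ∀ j, j ≤ c → (#{f ∈ box k (N + j) | P f} : ℝ) ≤
      qq k ^ N + ε * (qq k ^ (N + j) - qq k ^ N) := by
    intro j
    induction j with
    | zero =>
      intro _
      rw [add_zero, sub_self, mul_zero, add_zero, ← card_box]
      exact_mod_cast card_filter_le _ _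
    | succ j ih =>
      intro hj
      have h1 := H (N + j) (by omega) (by omega)
      rw [box_exp_mon, sum_boole, div_le_iff₀ (by positivity)] at h1
      have h2 := boxm_step P (N + j) hP
      have h3 := mul_le_mul_of_nonneg_left h1 (show 0 ≤ qq k - 1 by linarith)
      rw [← add_assoc, pow_succ]
      nlinarith [ih (by omega)]
  rw [box_exp, sum_boole, div_le_iff₀ (by positivity)]
  refine (key c le_rfl).trans ?_
  have h1 : qq k ^ N ≤ 1 / 2 ^ c * qq k ^ (N + c) := by
    rw [pow_add, one_div, inv_mul_eq_div, le_div_iff₀ (by positivity)]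
    gcongr
  have h2 : 0 ≤ ε * qq k ^ N := by positivity
  nlinarith

end

section
variable {k : Type*} [Field k] [Fintype k] [CharP k 2]

omit [CharP k 2] in
theorem huge_prs (e : ℕ) : (e : ℝ) * #(prs k e) ≤ qq k ^ e := by
  rcases Nat.eq_zero_or_pos e with rfl | he
  · simp
  have h1 : 1 < Fintype.card k := Fintype.one_lt_card
  have hd := FiniteField.X_pow_card_pow_sub_X_natDegree_eq k he.ne' h1
  have hm : (X ^ Fintype.card k ^ e - X : k[X]).Monic := monic_X_pow_sub (by
    rw [degree_X]; exact_mod_cast Nat.one_lt_pow he.ne' h1)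
  have hS : ∀ p ∈ prs k e, p.Monic ∧ p.natDegree = e ∧ Irreducible p := fun p hp =>
    ⟨(mem_mon.1 (mem_filter.1 hp).1).1, (mem_mon.1 (mem_filter.1 hp).1).2, (mem_filter.1 hp).2⟩
  have h3 : ∏ p ∈ prs k e, p ∣ X ^ Fintype.card k ^ e - X := by
    refine Finset.prod_dvd_of_coprime (fun a ha b hb hab => ?_) fun a ha => ?_
    · exact (hS a ha).2.2.coprime_iff_not_dvd.2 fun hd => hab (eq_of_monic_of_associated
        (hS a ha).1 (hS b hb).1 ((hS a ha).2.2.associated_of_dvd (hS b hb).2.2 hd))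
    · rw [← Nat.card_eq_fintype_card,
        ← (hS a ha).2.2.natDegree_dvd_iff_dvd_X_pow_card_pow_sub_X, (hS a ha).2.1]
  have h4 := natDegree_le_of_dvd h3 hm.ne_zero
  rw [natDegree_prod_of_monic _ _ fun p hp => (hS p hp).1, hd,
    sum_congr rfl fun p hp => (hS p hp).2.1, sum_const, smul_eq_mul, mul_comm] at h4
  unfold qq
  exact_mod_cast h4

theorem huge_row : HUGE_s k := by
  intro m w L hw hL
  have q2 := two_le_qq (k := k)
  have h0 : ∀ (B d : k[X]), (0 : ℝ) ≤ if d ∣ B then 1 else 0 := fun B d => by positivity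
  have h1 : ∀ B ∈ mon k m, (if ∃ (π : k[X]) (i : ℕ), Irreducible π ∧ π ^ i ∣ B ∧
      m < i * π.natDegree + 2 * w then (1 : ℝ) else 0) ≤
      (∑ e ∈ Ioc (m - 2 * w) m, ∑ p ∈ prs k e, if p ∣ B then (1 : ℝ) else 0) +
        if Big L B then 1 else 0 := by
    intro B hB
    obtain ⟨b1, b2⟩ := mem_mon.1 hB
    have s0 : 0 ≤ ∑ e ∈ Ioc (m - 2 * w) m, ∑ p ∈ prs k e, if p ∣ B then (1 : ℝ) else 0 :=
      sum_nonneg fun e _ => sum_nonneg fun p _ => h0 B p
    have s1 : (0 : ℝ) ≤ if Big L B then 1 else 0 := by positivity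
    split_ifs with h g g
    · linarith
    · obtain ⟨π, i, a1, a2, a3⟩ := h
      have as := associated_normalize π
      have pm : (normalize π).Monic := monic_normalize a1.ne_zero
      have pd : (normalize π).natDegree = π.natDegree :=
        natDegree_eq_of_degree_eq degree_normalize
      have a4 : normalize π ^ i ∣ B := (as.pow_pow (n := i)).dvd_iff_dvd_left.1 a2
      have a5 := natDegree_le_of_dvd a4 b1.ne_zero
      rw [natDegree_pow, pd, b2] at a5
      have i1 : i = 1 := by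
        by_contra ne
        refine g ⟨normalize π ^ (i / 2), pm.pow _, ?_, (?_ : _ ∣ normalize π ^ i).trans a4⟩
        · rw [natDegree_pow, pd]
          have i0 : i ≠ 0 := fun e => by subst e; omega
          have : i * π.natDegree ≤ 3 * (i / 2) * π.natDegree :=
            Nat.mul_le_mul_right _ (by omega)
          rw [mul_assoc] at this
          omega
        · rw [← pow_mul]
          exact pow_dvd_pow _ (by omega)
      subst i1
      rw [pow_one] at a4
      rw [add_zero]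
      refine le_trans ?_ (single_le_sum (f := fun e => ∑ p ∈ prs k e,
        if p ∣ B then (1 : ℝ) else 0) (fun e _ => sum_nonneg fun p _ => h0 B p)
        (mem_Ioc.2 (show m - 2 * w < π.natDegree ∧ π.natDegree ≤ m by omega)))
      refine le_trans ?_ (single_le_sum (fun p _ => h0 B p)
        (mem_filter.2 ⟨mem_mon.2 ⟨pm, pd⟩, as.irreducible a1⟩))
      rw [if_pos a4]
    · linarith
    · linarith
  refine (expect_le_expect h1).trans ?_
  rw [expect_add_distrib, expect_sum_comm]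
  refine add_le_add ?_ ((exp_big m L).trans (by gcongr))
  refine (sum_le_card_nsmul _ _ (2 / m : ℝ) fun e he => ?_).trans ?_
  · obtain ⟨e1, e2⟩ := mem_Ioc.1 he
    have h2 : ∀ p ∈ prs k e, 𝔼 B ∈ mon k m, (if p ∣ B then (1 : ℝ) else 0) = 1 / qq k ^ e :=
      fun p hp => by
        obtain ⟨c1, c2⟩ := mem_mon.1 (mem_filter.1 hp).1
        rw [share_dvd c1.ne_zero (c2.trans_le e2), c2]
    rw [expect_sum_comm, sum_congr rfl h2, sum_const, nsmul_eq_mul, mul_one_div,
      div_le_div_iff₀ (by positivity) (by exact_mod_cast (by omega : 0 < m))]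
    have h3 : (m : ℝ) ≤ 2 * e := by exact_mod_cast (by omega : m ≤ 2 * e)
    have h4 := huge_prs (k := k) e
    have h5 : (0 : ℝ) ≤ #(prs k e) := Nat.cast_nonneg _
    nlinarith
  · rw [Nat.card_Ioc, nsmul_eq_mul, show m - (m - 2 * w) = 2 * w by omega]
    push_cast
    exact le_of_eq (by ring)

end

section
variable {k : Type*} [Field k] [Fintype k] [CharP k 2]

omit [CharP k 2] in
theorem good_det (hSPLIT : SPLIT_s k) {L M m w : ℕ} {Δ B : k[X]} (hB : B ∈ mon k m) (hm : m ≤ M)
    (hw : 2 * w ≤ m) (h : Spf L m Δ B)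
    (g : ¬ ∃ (π : k[X]) (i : ℕ), Irreducible π ∧ π ^ i ∣ B ∧ m < i * π.natDegree + 2 * w) :
    Good L M (M - w) Δ B := by
  obtain ⟨b1, b2⟩ := mem_mon.1 hB
  obtain ⟨p, p1, p2, p3, p4, p5, ⟨r, rfl⟩, p7⟩ := h
  have rm : r.Monic := p1.of_mul_monic_left b1
  rw [p1.natDegree_mul rm] at b2
  obtain ⟨a, b, e, co, h1, h2⟩ := hSPLIT r (m - 2 * w) (min w r.natDegree) rm.ne_zero
    (min_le_right _ _) fun π i hπ hd => by
      have := not_lt.1 fun l => g ⟨π, i, hπ, hd.mul_left _, l⟩
      omega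
  have a0 : a ≠ 0 := left_ne_zero_of_mul (e ▸ rm.ne_zero)
  have b0 : b ≠ 0 := right_ne_zero_of_mul (e ▸ rm.ne_zero)
  have e2 : r = normalize a * normalize b := by
    rw [← normalize_mul, ← e, rm.normalize_eq_self]
  have da : (normalize a).natDegree = a.natDegree := natDegree_eq_of_degree_eq degree_normalize
  have db : (normalize b).natDegree = b.natDegree := natDegree_eq_of_degree_eq degree_normalize
  have dr : r.natDegree = a.natDegree + b.natDegree := by rw [e, natDegree_mul a0 b0]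
  refine ⟨1, p, normalize a, normalize b, one_ne_zero, by rw [← e2, C_1, one_mul], p1, p2,
    monic_normalize a0, monic_normalize b0,
    (co.of_isCoprime_of_dvd_left (normalize_associated a).dvd).of_isCoprime_of_dvd_right
      (normalize_associated b).dvd, ?_, p5, p3, by omega, by omega, by omega⟩
  rw [← e2]
  exact fun d => p7 (by rw [sq]; exact mul_dvd_mul_left p d)

theorem good_row (hSPLIT : SPLIT_s k) (hBOXM : BOXM_s k) (hHUGE : HUGE_s k) : GOOD_s k := by
  intro ε e0
  obtain ⟨s, hs⟩ := exists_nat_ge (32 / ε)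
  obtain ⟨c, hc⟩ := pow_unbounded_of_one_lt (8 / ε) (one_lt_two (α := ℝ))
  have c1 : (2 : ℝ) / 2 ^ c ≤ ε / 4 := by
    rw [div_lt_iff₀ e0] at hc
    rw [div_le_div_iff₀ (by positivity) (by norm_num)]
    linarith
  have c2 : (1 : ℝ) / 2 ^ c ≤ ε / 4 := le_trans (by gcongr; norm_num) c1
  refine ⟨s + 8, by omega, fun L Δ hΔ => ?_⟩
  obtain ⟨m₀, H⟩ := eventually_atTop.1 (share (k := k) L 1 (show 0 < ε / 4 by positivity))
  filter_upwards [eventually_ge_atTop (m₀ + Δ.natDegree + 7 * c + 1)] with M hM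
  have hw : M / (s + 8) * (s + 8) ≤ M := Nat.div_mul_le_self _ _
  generalize M / (s + 8) = w at hw ⊢
  have hw8 : w * 8 ≤ M := (Nat.mul_le_mul_left w (by omega)).trans hw
  have key := hBOXM (fun B => ¬ Good L M (M - w) Δ B) M c (3 * (ε / 4)) (by positivity) (by omega)
  refine le_trans (le_of_eq ?_) ((key ?_ fun m m1 m2 => ?_).trans (by linarith))
  · exact expect_congr rfl fun B _ => by by_cases g : Good L M (M - w) Δ B <;> simp [g]
  · rintro u f hu hn ⟨β, p, r₁, r₂, b0, e, rest⟩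
    exact hn ⟨u * β, p, r₁, r₂, mul_ne_zero hu b0, by rw [e, C_mul, mul_assoc], rest⟩
  · have h1 := H m (by omega) Δ hΔ (by omega)
    have h2 := hHUGE m w c (by omega) (by omega)
    have h3 : 4 * (w : ℝ) / m ≤ ε / 4 := by
      have a1 : (w : ℝ) * (s + 8) ≤ 2 * m := by exact_mod_cast hw.trans (by omega : M ≤ 2 * m)
      have a2 : (0 : ℝ) ≤ w := Nat.cast_nonneg _
      rw [div_le_iff₀ e0] at hs
      rw [div_le_div_iff₀ (by exact_mod_cast (by omega : 0 < m)) (by norm_num)]
      nlinarith [mul_le_mul_of_nonneg_left hs a2, mul_le_mul_of_nonneg_left a1 e0.le,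
        mul_nonneg a2 e0.le]
    refine le_trans (expect_le_expect fun B hB => ?_)
      ((expect_add_distrib _ _ _).trans_le ((add_le_add h1 h2).trans (by linarith)))
    by_cases g1 : Spf L m Δ B
    · by_cases g2 : ∃ (π : k[X]) (i : ℕ), Irreducible π ∧ π ^ i ∣ B ∧ m < i * π.natDegree + 2 * w
      · rw [if_pos g1, if_pos g2, zero_add]
        split_ifs <;> norm_num
      · rw [if_pos g1, if_neg g2, zero_add, if_neg (not_not.2
          (good_det (w := w) hSPLIT hB m1.le (by omega) g1 g2))]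
    · rw [if_neg g1]
      split_ifs <;> norm_num

end

section
variable {k : Type*} [Field k] [Fintype k] [CharP k 2]


theorem dom_row : DOM_s k := by
  intro β γ n M P hβ h1 h2 h3
  choose a b hab hdeg using exists_ab (k := k)
  have hq := two_le_qq (k := k)
  have hc : #{f ∈ mon k n | ∃ A B : k[X], β * f + γ = A ^ 2 + X * B ^ 2 ∧ P B} ≤
      #(box k (M + 1) ×ˢ {B ∈ box k M | P B}) := by
    refine card_le_card_of_injOn (fun f => (a (β * f + γ), b (β * f + γ))) (fun f hf => ?_)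
      fun f _ g _ e => ?_
    · obtain ⟨hf, A, B, e, hP⟩ := mem_filter.1 (mem_coe.1 hf)
      have hd : (β * f + γ).natDegree ≤ 2 * M := (natDegree_add_le _ _).trans (max_le
        (natDegree_mul_le.trans (by rw [(mem_mon.1 hf).2]; omega)) (by omega))
      obtain ⟨d1, d2⟩ := hdeg (β * f + γ) M (degree_le_natDegree.trans_lt
        (by exact_mod_cast Nat.lt_succ_of_le hd))
      refine mem_coe.2 (mem_product.2 ⟨mem_box.2 d1, mem_filter.2 ⟨mem_box.2 d2, ?_⟩⟩)
      rwa [(ab_inj (e.symm.trans (hab _))).2] at hP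
    · have e1 : β * f + γ = β * g + γ := by
        rw [hab (β * f + γ), hab (β * g + γ), (Prod.mk.inj e).1, (Prod.mk.inj e).2]
      exact mul_left_cancel₀ hβ (add_right_cancel e1)
  rw [card_product] at hc
  have hc' := (Nat.cast_le (α := ℝ)).2 hc
  rw [Nat.cast_mul, card_box] at hc'
  rw [box_exp_mon, box_exp, sum_boole, sum_boole, ← mul_div_assoc,
    div_le_div_iff₀ (by positivity) (by positivity)]
  have h4 : qq k ^ (M + 1) * qq k ^ M ≤ qq k ^ (β.natDegree + 2) * qq k ^ n := by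
    rw [← pow_add, ← pow_add]
    exact pow_le_pow_right₀ (by linarith) (by omega)
  refine (mul_le_mul_of_nonneg_right hc' (by positivity)).trans ?_
  rw [mul_right_comm, mul_right_comm (qq k ^ (β.natDegree + 2))]
  exact mul_le_mul_of_nonneg_right h4 (Nat.cast_nonneg _)

end

section
variable {k : Type*} [Field k] [Fintype k] [CharP k 2]

omit [CharP k 2] in
theorem root2_cls (n : ℕ) {M c : k[X]} (hM : M ≠ 0) (hc : IsCoprime c M) (b : k[X]) :
    𝔼 f ∈ mon k n, (if M ∣ b + c * f then (1 : ℝ) else 0) ≤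
      1 / qq k ^ M.natDegree + 1 / qq k ^ n := by
  have hq := two_le_qq (k := k)
  by_cases h : M.natDegree ≤ n
  · rw [mon, expect_image fun _ _ _ _ e => add_left_cancel e]
    simp only [mul_add, ← add_assoc]
    rw [exp_box_dvd hM h hc]
    exact le_add_of_nonneg_right (by positivity)
  · rw [box_exp_mon, sum_boole]
    refine le_trans (div_le_div_of_nonneg_right ?_ (by positivity))
      (le_add_of_nonneg_left (by positivity))
    refine Nat.cast_le_one.2 (card_le_one.2 fun f hf g hg => ?_)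
    obtain ⟨f1, f2⟩ := mem_filter.1 hf
    obtain ⟨g1, g2⟩ := mem_filter.1 hg
    have e : M ∣ c * (f - g) := by
      rw [show c * (f - g) = b + c * f - (b + c * g) by ring]
      exact dvd_sub f2 g2
    refine sub_eq_zero.1 (eq_zero_of_dvd_of_natDegree_lt (hc.symm.dvd_of_dvd_mul_left e) ?_)
    refine (natDegree_sub_le _ _).trans_lt ?_
    rw [(mem_mon.1 f1).2, (mem_mon.1 g1).2]
    omega

theorem root2_row : ROOT2_s k := by
  intro Q β γ π n hm hi hβ
  have hq := two_le_qq (k := k)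
  have hp := hi.prime
  have : Fact (Irreducible π) := ⟨hi⟩
  obtain ⟨G, hG⟩ : ∃ G, G = (Q ^ 2 + C β * X + C γ).map (AdjoinRoot.mk π) := ⟨_, rfl⟩
  have h2 : (2 : k[X][X]) = 0 := by
    rw [← map_ofNat (C : k[X] →+* k[X][X]) 2, show (OfNat.ofNat 2 : k[X]) = 0 from a2_two, map_zero]
  have hd : derivative (Q ^ 2 + C β * X + C γ) = C β := by
    rw [derivative_add, derivative_add, derivative_C, derivative_C_mul_X, sq, derivative_mul]
    linear_combination (Q * derivative Q) * h2
  have G0 : G ≠ 0 := fun e => hβ (AdjoinRoot.mk_eq_zero.1 (C_eq_zero.1 (by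
    rw [← map_C, ← hd, ← derivative_map, ← hG, e, derivative_zero])))
  have Gd : G.natDegree ≤ 2 * Q.natDegree + 1 := by
    rw [hG]
    refine natDegree_map_le.trans ((natDegree_add_le _ _).trans (max_le
      ((natDegree_add_le _ _).trans (max_le (natDegree_pow_le.trans (by omega))
      ((natDegree_C_mul_le _ _).trans (natDegree_X_le.trans (by omega))))) (by simp)))
  have hT : (#G.roots.toFinset : ℝ) ≤ 2 * Q.natDegree + 1 := by
    exact_mod_cast (Multiset.toFinset_card_le _).trans ((card_roots' G).trans Gd)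
  have ex : ∀ ρ : AdjoinRoot π, ∃ g : k[X], ∀ f, AdjoinRoot.mk π f = ρ →
      π ^ 2 ∣ Q.eval f ^ 2 + β * f + γ → π ^ 2 ∣ -g + 1 * f := fun ρ => by
    by_cases h : ∃ g, AdjoinRoot.mk π g = ρ ∧ π ^ 2 ∣ Q.eval g ^ 2 + β * g + γ
    · obtain ⟨g, g1, g2⟩ := h
      refine ⟨g, fun f f1 f2 => ?_⟩
      have d1 : π ∣ f - g := AdjoinRoot.mk_eq_mk.1 (f1.trans g1.symm)
      have d2 := pow_dvd_pow_of_dvd (d1.trans (sub_dvd_eval_sub f g Q)) 2
      have e : β * (-g + 1 * f) = Q.eval f ^ 2 + β * f + γ - (Q.eval g ^ 2 + β * g + γ) -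
          (Q.eval f - Q.eval g) ^ 2 := by
        linear_combination (Q.eval g ^ 2 - Q.eval f * Q.eval g) * (a2_two (k := k))
      exact hp.pow_dvd_of_dvd_mul_left 2 hβ (e ▸ dvd_sub (dvd_sub f2 g2) d2)
    · exact ⟨0, fun f f1 f2 => absurd ⟨f, f1, f2⟩ h⟩
  choose g hg using ex
  have a1 : 𝔼 f ∈ mon k n, ∑ ρ ∈ G.roots.toFinset,
      (if π ^ 2 ∣ -g ρ + 1 * f then (1 : ℝ) else 0) ≤
      (2 * Q.natDegree + 1) * (1 / qq k ^ (2 * π.natDegree) + 1 / qq k ^ n) := by
    rw [expect_sum_comm]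
    refine (sum_le_card_nsmul _ _ (1 / qq k ^ (2 * π.natDegree) + 1 / qq k ^ n)
      fun ρ _ => ?_).trans ?_
    · have := root2_cls n (pow_ne_zero 2 hm.ne_zero) isCoprime_one_left (-g ρ)
      rwa [natDegree_pow] at this
    · rw [nsmul_eq_mul]
      exact mul_le_mul_of_nonneg_right hT (by positivity)
  refine le_trans (expect_le_expect fun f _ => ?_) (a1.trans (le_of_eq (by ring)))
  have h0 : ∀ ρ, (0 : ℝ) ≤ if π ^ 2 ∣ -g ρ + 1 * f then 1 else 0 := fun ρ => by positivity
  by_cases h : π ^ 2 ∣ Q.eval f ^ 2 + β * f + γ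
  swap
  · rw [if_neg h]
    exact sum_nonneg fun ρ _ => h0 ρ
  rw [if_pos h]
  refine le_trans ?_ (single_le_sum (fun ρ _ => h0 ρ) (a := AdjoinRoot.mk π f)
    (Multiset.mem_toFinset.2 ((mem_roots G0).2 ?_)))
  · rw [if_pos (hg _ f rfl h)]
  · rw [IsRoot, hG, eval_map, eval₂_at_apply, AdjoinRoot.mk_eq_zero]
    simpa using (dvd_pow_self π two_ne_zero).trans h

end

section
variable {k : Type*} [Field k] [Fintype k] [CharP k 2]

omit [CharP k 2] in
theorem bad2_cmn {L M : ℕ} {A B : k[X]} (hB : ¬ Big L B) (hd : B.degree < M)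
    (hp : ∀ π : k[X], π.Monic → Irreducible π → L ≤ π.natDegree → π.natDegree < M →
      ¬ π ^ 2 ∣ A ^ 2 + X * B ^ 2) : Cmn (MP_2033ac_nt.lcmP k (3 * L)) A B := by
  have h0 : B ≠ 0 := fun e => hB ⟨X ^ L, monic_X_pow L, by simp, e ▸ dvd_zero _⟩
  have hd' : B.natDegree < M := (natDegree_lt_iff_degree_lt h0).2 hd
  intro e
  refine UniqueFactorizationMonoid.induction_on_coprime
    (P := fun e => e ∣ A → e ∣ B → e ∣ MP_2033ac_nt.lcmP k (3 * L)) e
    (fun _ h => absurd (zero_dvd_iff.1 h) h0) (fun hx _ _ => hx.dvd) (fun {p} i hq h1 h2 => ?_)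
    fun {x y} hxy hx hy h1 h2 => hxy.mul_dvd (hx (dvd_of_mul_right_dvd h1) (dvd_of_mul_right_dvd h2))
      (hy (dvd_of_mul_left_dvd h1) (dvd_of_mul_left_dvd h2))
  rcases Nat.eq_zero_or_pos i with rfl | hi
  · simp
  have ha : Associated (normalize p) p := normalize_associated p
  have hm : (normalize p).Monic := monic_normalize hq.ne_zero
  have hn : (normalize p).natDegree = p.natDegree := natDegree_eq_of_degree_eq
    (degree_eq_degree_of_associated ha)
  have d1 : normalize p ∣ A := ha.dvd.trans ((dvd_pow_self p hi.ne').trans h1)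
  have d2 : normalize p ∣ B := ha.dvd.trans ((dvd_pow_self p hi.ne').trans h2)
  have l1 : p.natDegree < L := by
    by_contra hl
    refine hp _ hm (ha.symm.irreducible hq.irreducible) (by omega)
      ((natDegree_le_of_dvd d2 h0).trans_lt hd') ?_
    exact dvd_add (pow_dvd_pow_of_dvd d1 2) ((pow_dvd_pow_of_dvd d2 2).mul_left X)
  have l2 : i / 2 * p.natDegree < L := by
    by_contra hl
    refine hB ⟨normalize p ^ (i / 2), hm.pow _, by rw [natDegree_pow, hn]; omega, ?_⟩
    rw [← pow_mul]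
    exact (pow_dvd_pow _ (by omega)).trans ((pow_dvd_pow_of_dvd ha.dvd i).trans h2)
  refine MP_2033ac_nt.pow_dvd_lcmP hq.irreducible i _ ?_
  calc i * p.natDegree ≤ (2 * (i / 2) + 1) * p.natDegree := Nat.mul_le_mul_right _ (by omega)
    _ = 2 * (i / 2 * p.natDegree) + p.natDegree := by ring
    _ ≤ 3 * L := by omega

theorem bad2_row (hDOM : DOM_s k) (hBOXM : BOXM_s k) (hROOT2 : ROOT2_s k) : BAD2_s k := by
  intro Q β ε hβ hε
  have hq := two_le_qq (k := k)
  obtain ⟨r, hr⟩ : ∃ r : ℝ, r = 2 * Q.natDegree + 1 := ⟨_, rfl⟩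
  have r0 : 0 < r := by rw [hr]; positivity
  obtain ⟨L1, hL1⟩ := pow_unbounded_of_one_lt ((3 * qq k ^ (β.natDegree + 2) + 2 * r) * 2 / ε)
    (one_lt_two (α := ℝ))
  obtain ⟨L, hL⟩ : ∃ L, L = L1 + β.natDegree + 1 := ⟨_, rfl⟩
  have hL2 : (3 * qq k ^ (β.natDegree + 2) + 2 * r) * (1 / 2 ^ L) ≤ ε / 2 := by
    have : (2 : ℝ) ^ L1 ≤ 2 ^ L := pow_le_pow_right₀ one_le_two (by omega)
    rw [div_lt_iff₀ hε] at hL1
    rw [mul_one_div, div_le_div_iff₀ (by positivity) two_pos]
    nlinarith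
  obtain ⟨N, hN⟩ := exists_nat_ge (2 * r / ε)
  obtain ⟨E0, hE0⟩ := eventually_atTop.1 (share_pow (N * (β.natDegree + 1)))
  refine ⟨MP_2033ac_nt.lcmP k (3 * L), (MP_2033ac_nt.lcmP_monic _).ne_zero,
    eventually_atTop.2 ⟨2 * E0 + 2 * L + β.natDegree + 2, fun n hn γ hγ => ?_⟩⟩
  obtain ⟨M, hM⟩ : ∃ M, M = (n + β.natDegree + 1) / 2 := ⟨_, rfl⟩
  obtain ⟨E, hE⟩ : ∃ E, n = M + E := ⟨n - M, by omega⟩
  have hqL : 1 / qq k ^ L ≤ 1 / 2 ^ L :=
    one_div_le_one_div_of_le (by positivity) (pow_le_pow_left₀ two_pos.le hq L)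
  have b1 := hBOXM (Big L) M L (2 / qq k ^ L) (by positivity) (by omega)
    (fun u f hu ⟨d, d1, d2, d3⟩ => ⟨d, d1, d2, (isUnit_C.2 hu.isUnit).dvd_mul_left.1 d3⟩)
    fun m _ _ => exp_big m L
  have b2 := (hDOM β γ n M (Big L) hβ (by omega) (by omega) hγ).trans
    (mul_le_mul_of_nonneg_left b1 (by positivity))
  have b3 : 𝔼 f ∈ mon k n, ∑ j ∈ range (M - L), ∑ π ∈ prs k (L + j),
      (if π ^ 2 ∣ Q.eval f ^ 2 + β * f + γ then (1 : ℝ) else 0) ≤ 2 * r * (1 / 2 ^ L) + ε / 2 := by
    rw [expect_sum_comm]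
    refine (sum_le_sum fun j hj => (?_ : _ ≤ r * (1 / qq k ^ (L + j)) + r / 2 ^ E)).trans ?_
    · rw [expect_sum_comm]
      have hj' := mem_range.1 hj
      refine (sum_le_card_nsmul _ _ (r / qq k ^ (2 * (L + j)) + r / qq k ^ n)
        fun π hπ => ?_).trans ?_
      · obtain ⟨p1, p2⟩ := mem_filter.1 hπ
        obtain ⟨p3, p4⟩ := mem_mon.1 p1
        rw [← p4, hr]
        exact hROOT2 Q β γ π n p3 p2 (core_ndvd hβ (by omega))
      · have c1 : (#(prs k (L + j)) : ℝ) ≤ qq k ^ (L + j) := by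
          rw [← card_mon]
          exact Nat.cast_le.2 (card_filter_le _ _)
        rw [nsmul_eq_mul]
        refine (mul_le_mul_of_nonneg_right c1 (by positivity)).trans ?_
        rw [mul_add]
        refine add_le_add (le_of_eq ?_) ?_
        · rw [two_mul (L + j), pow_add (qq k) (L + j)]
          field_simp
        · rw [← mul_div_assoc, div_le_div_iff₀ (by positivity) (by positivity), hE, pow_add _ M]
          have c2 : qq k ^ (L + j) ≤ qq k ^ M := pow_le_pow_right₀ (by linarith) (by omega)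
          have c3 : (2 : ℝ) ^ E ≤ qq k ^ E := pow_le_pow_left₀ two_pos.le hq E
          have c4 := mul_le_mul_of_nonneg_left
            (mul_le_mul c2 c3 (by positivity) (by positivity)) r0.le
          linarith
    · rw [sum_add_distrib, ← mul_sum, sum_const, card_range, nsmul_eq_mul]
      have c1 := (ari_geom2 (k := k) L (M - L)).trans (sub_le_self _ (by positivity))
      have c2 : N * (M - L) ≤ 2 ^ E := le_trans (by
        rw [mul_assoc]
        exact Nat.mul_le_mul_left _ (by nlinarith [show M - L ≤ E + β.natDegree + 1 by omega]))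
        (hE0 E (by omega))
      have c3 : (N : ℝ) * ((M - L : ℕ) : ℝ) ≤ 2 ^ E := by exact_mod_cast c2
      have c4 : ((M - L : ℕ) : ℝ) * (r / 2 ^ E) ≤ ε / 2 := by
        rw [div_le_iff₀ hε] at hN
        rw [← mul_div_assoc, div_le_div_iff₀ (by positivity) two_pos]
        have c5 : (0 : ℝ) ≤ ((M - L : ℕ) : ℝ) := Nat.cast_nonneg _
        nlinarith [mul_le_mul_of_nonneg_right hN c5, mul_le_mul_of_nonneg_left c3 hε.le]
      have c6 : 2 / qq k ^ L = 2 * (1 / qq k ^ L) := by ring
      have c7 := mul_le_mul_of_nonneg_left c1 r0.le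
      have c8 := mul_le_mul_of_nonneg_left hqL r0.le
      rw [c6] at c7
      linarith
  have c6 : 2 / qq k ^ L = 2 * (1 / qq k ^ L) := by ring
  have b4 := mul_le_mul_of_nonneg_left hqL (show 0 ≤ qq k ^ (β.natDegree + 2) by positivity)
  refine le_trans ?_ ((add_le_add b2 b3).trans (by rw [c6]; nlinarith))
  rw [← expect_add_distrib]
  refine expect_le_expect fun f hf => ?_
  have h0 : ∀ π : k[X], (0 : ℝ) ≤ if π ^ 2 ∣ Q.eval f ^ 2 + β * f + γ then 1 else 0 :=
    fun π => by positivity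
  have h1 : (0 : ℝ) ≤ ∑ j ∈ range (M - L), ∑ π ∈ prs k (L + j),
      (if π ^ 2 ∣ Q.eval f ^ 2 + β * f + γ then (1 : ℝ) else 0) :=
    sum_nonneg fun j _ => sum_nonneg fun π _ => h0 π
  by_cases h : ∃ A B : k[X], β * f + γ = A ^ 2 + X * B ^ 2 ∧
      ¬ Cmn (MP_2033ac_nt.lcmP k (3 * L)) (Q.eval f + A) B
  swap
  · rw [if_neg h]
    positivity
  rw [if_pos h]
  obtain ⟨A, B, e, hc⟩ := h
  by_cases hB : Big L B
  · rw [if_pos ⟨A, B, e, hB⟩]
    exact le_add_of_nonneg_right h1
  have hd : B.degree < M := by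
    obtain ⟨a, b, e1, e2⟩ := exists_ab (β * f + γ)
    have hd : (β * f + γ).natDegree ≤ 2 * M := (natDegree_add_le _ _).trans (max_le
      (natDegree_mul_le.trans (by rw [(mem_mon.1 hf).2]; omega)) (by omega))
    rw [(ab_inj (e.symm.trans e1)).2]
    exact (e2 M (degree_le_natDegree.trans_lt (by exact_mod_cast Nat.lt_succ_of_le hd))).2
  refine le_trans ?_ (le_add_of_nonneg_left (by positivity))
  by_contra hlt
  refine hc (bad2_cmn hB hd fun π p1 p2 p3 p4 p5 => hlt ?_)
  refine le_trans ?_ (single_le_sum (f := fun j => ∑ π ∈ prs k (L + j),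
    (if π ^ 2 ∣ Q.eval f ^ 2 + β * f + γ then (1 : ℝ) else 0))
    (fun j _ => sum_nonneg fun d _ => h0 d) (mem_range.2 (show π.natDegree - L < M - L by omega)))
  refine le_trans ?_ (single_le_sum (fun d _ => h0 d) (mem_filter.2 ⟨mem_mon.2
    ⟨p1, (show π.natDegree = L + (π.natDegree - L) by omega)⟩, p2⟩))
  rw [if_pos (by rwa [add_assoc, e, ← add_assoc, ← CharTwo.add_sq])]

end

section
variable {k : Type*} [Field k] [Fintype k] [CharP k 2]

omit [Fintype k] [CharP k 2] in
theorem deg_pow {f h : k[X]} {n : ℕ} (hf : f.natDegree ≤ n) (hh : h.natDegree ≤ n) (i : ℕ) :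
    ((f + h) ^ (i + 1) - f ^ (i + 1)).natDegree ≤ i * n + h.natDegree := by
  induction i with
  | zero => simp
  | succ i ih =>
    rw [show (f + h) ^ (i + 1 + 1) - f ^ (i + 1 + 1) =
      ((f + h) ^ (i + 1) - f ^ (i + 1)) * (f + h) + f ^ (i + 1) * h by ring]
    have h1 : (f + h).natDegree ≤ n := natDegree_add_le_of_degree_le hf hh
    have h2 : (f ^ (i + 1)).natDegree ≤ (i + 1) * n :=
      natDegree_pow_le.trans (Nat.mul_le_mul_left _ hf)
    refine natDegree_add_le_of_degree_le (natDegree_mul_le.trans ?_) (natDegree_mul_le.trans ?_)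
    · rw [Nat.succ_mul]; omega
    · omega

omit [Fintype k] [CharP k 2] in
theorem deg_row : DEG_s k := by
  intro Q hQ
  obtain ⟨e, he⟩ := Nat.exists_eq_succ_of_ne_zero hQ.ne'
  have hl : Q.coeff (e + 1) ≠ 0 := by
    rw [← Nat.succ_eq_add_one, ← he]
    exact leadingCoeff_ne_zero.2 (ne_zero_of_natDegree_gt hQ)
  obtain ⟨c, hc⟩ : ∃ c, ∀ i ∈ range (e + 2), (Q.coeff i).natDegree ≤ c :=
    ⟨_, fun i hi => le_sup (f := fun i => (Q.coeff i).natDegree) hi⟩
  refine ⟨c + e + 2, fun n f hn hf => ?_⟩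
  have f0 : f ≠ 0 := ne_zero_of_natDegree_gt (n := 0) (by omega)
  have ev : ∀ x, Q.eval x = ∑ i ∈ range (e + 2), Q.coeff i * x ^ i := fun x => by
    rw [eval_eq_sum_range, he]
  have d1 : (Q.coeff (e + 1) * f ^ (e + 1)).natDegree =
      (Q.coeff (e + 1)).natDegree + (e * n + n) := by
    rw [natDegree_mul hl (pow_ne_zero _ f0), natDegree_pow, hf, Nat.succ_mul]
  have d2 : (∑ i ∈ range (e + 1), Q.coeff i * f ^ i).natDegree ≤ c + e * n := by
    refine natDegree_sum_le_of_forall_le _ _ fun i hi => natDegree_mul_le.trans ?_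
    have h1 := mem_range.1 hi
    have h2 := hc i (mem_range.2 (by omega))
    have h3 := Nat.mul_le_mul_right n (by omega : i ≤ e)
    rw [natDegree_pow, hf]
    omega
  have d3 : (Q.eval f).natDegree = (Q.coeff (e + 1)).natDegree + (e * n + n) := by
    rw [ev, sum_range_succ, natDegree_add_eq_right_of_natDegree_lt (by omega), d1]
  have h4 := hc (e + 1) (mem_range.2 (by omega))
  refine ⟨by omega, ?_, fun h hh => ?_⟩
  · rw [d3, add_mul, add_mul]
    omega
  · have d4 : (Q.eval (f + h) - Q.eval f).natDegree ≤ c + (e * n + h.natDegree) := by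
      rw [ev, ev, ← sum_sub_distrib]
      refine natDegree_sum_le_of_forall_le _ _ fun i hi => ?_
      rcases i with _ | i
      · simp
      have h1 := mem_range.1 hi
      have h2 := hc _ hi
      have h3 := Nat.mul_le_mul_right n (by omega : i ≤ e)
      have h5 := deg_pow hf.le hh i
      rw [← mul_sub]
      exact natDegree_mul_le.trans (by omega)
    omega

end

section
variable {k : Type*} [Field k] [Fintype k] [CharP k 2]

-- helper lemmas of this row: prefix cor2_

theorem cor2_avg {α β : Type*} (T : Finset α) (S : Finset β) (hT : T.Nonempty) (hS : S.Nonempty)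
    (F bad ng : α → ℝ) (sh : α → β → α) (a : ℝ)
    (hF : ∀ s ∈ S, 𝔼 f ∈ T, F (sh f s) = 𝔼 f ∈ T, F f)
    (hb : ∀ s ∈ S, 𝔼 f ∈ T, bad (sh f s) = 𝔼 f ∈ T, bad f)
    (h : ∀ f ∈ T, |𝔼 s ∈ S, F (sh f s)| ≤ a + 2 * (𝔼 s ∈ S, bad (sh f s)) + ng f) :
    |𝔼 f ∈ T, F f| ≤ a + 2 * (𝔼 f ∈ T, bad f) + 𝔼 f ∈ T, ng f := by
  have e1 : 𝔼 f ∈ T, F f = 𝔼 f ∈ T, 𝔼 s ∈ S, F (sh f s) := by
    rw [expect_comm, expect_congr rfl hF, expect_const hS]
  have e2 : 𝔼 f ∈ T, bad f = 𝔼 f ∈ T, 𝔼 s ∈ S, bad (sh f s) := by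
    rw [expect_comm, expect_congr rfl hb, expect_const hS]
  rw [e1, e2]
  refine (abs_expect_le _ _).trans ((expect_le_expect h).trans (le_of_eq ?_))
  rw [expect_add_distrib, expect_add_distrib, expect_const hT, ← mul_expect]

omit [Fintype k] [CharP k 2] in
theorem cor2_nd {a : k[X]} {N : ℕ} (h : a.degree < (N + 1 : ℕ)) : a.natDegree ≤ N := by
  by_cases ha : a = 0
  · simp [ha]
  · have := (natDegree_lt_iff_degree_lt ha).2 h
    omega

theorem cor2_row (hLINED2 : LINED2_s k) (hGOOD : GOOD_s k) (hDOM : DOM_s k) (hBAD2 : BAD2_s k) (hSHF : SHF_s k) (hDEG : DEG_s k) : COR2_s k := by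
  intro Q β ε hQ hβ hε
  have hq2 := two_le_qq (k := k)
  have hq : 0 < qq k ^ (β.natDegree + 2) := by positivity
  obtain ⟨t, ht, hG⟩ := hGOOD (ε / 4 / qq k ^ (β.natDegree + 2)) (by positivity)
  obtain ⟨c, hc⟩ := hDEG Q hQ
  obtain ⟨L, K, hL⟩ := hLINED2 (24 * c * t) (Q.natDegree + 1) (ε / 4) (by positivity)
  obtain ⟨D, hD, hB⟩ := hBAD2 Q β (ε / 4) hβ (by positivity)
  have hM : Tendsto (fun n : ℕ => (n + β.natDegree + 1) / 2) atTop atTop :=
    tendsto_atTop.2 fun b => (eventually_ge_atTop (2 * b)).mono fun n hn => by omega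
  have hMt : Tendsto (fun M : ℕ => M / t) atTop atTop := Nat.tendsto_div_const_atTop (by omega)
  filter_upwards [hB, hM.eventually (hG L (β * D) (mul_ne_zero hβ hD)),
    (hMt.comp hM).eventually (eventually_ge_atTop
      (2 * D.natDegree + 2 * β.natDegree + 2 * K + c + 2)),
    eventually_gt_atTop (c + β.natDegree + 1)] with n hB hG hg hn γ hγ
  obtain ⟨M, hMd⟩ : ∃ M, M = (n + β.natDegree + 1) / 2 := ⟨_, rfl⟩
  simp only [Function.comp_apply] at hg
  rw [← hMd] at hG hg
  obtain ⟨g, hgd⟩ : ∃ g, g = M / t := ⟨_, rfl⟩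
  rw [← hgd] at hG hg
  have g1 : g * t ≤ M := hgd ▸ Nat.div_mul_le_self M t
  have g2 : M < g * t + t := hgd ▸ Nat.lt_div_mul_add (by omega)
  have g3 : 2 * g ≤ M := by nlinarith
  have g4 : M ≤ 2 * (t * g) := by nlinarith
  have m1 : n + β.natDegree ≤ 2 * M := by omega
  have m2 : 2 * M ≤ n + β.natDegree + 1 := by omega
  have m3 : M < n := by omega
  have hσ : ∀ σ ∈ box k (M - g + K), σ.natDegree ≤ M - g + K := fun σ hs =>
    natDegree_le_of_degree_le (mem_box.1 hs).le
  have hh : ∀ σ ∈ box k (M - g + K),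
      (D * (β * D) * σ ^ 2).natDegree + c + g ≤ n := fun σ hs => by
    have h1 := hσ σ hs
    have h2 : (D * (β * D) * σ ^ 2).natDegree ≤
        D.natDegree + (β.natDegree + D.natDegree) + 2 * σ.natDegree :=
      natDegree_mul_le.trans (add_le_add (natDegree_mul_le.trans
        (add_le_add le_rfl natDegree_mul_le)) natDegree_pow_le)
    omega
  have hsh : ∀ (F : k[X] → ℝ), ∀ σ ∈ box k (M - g + K),
      𝔼 f ∈ mon k n, F (f + D * (β * D) * σ ^ 2) = 𝔼 f ∈ mon k n, F f := fun F σ hs =>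
    exp_mon_shift (degree_le_natDegree.trans_lt (by
      have := hh σ hs
      exact_mod_cast (by omega : (D * (β * D) * σ ^ 2).natDegree < n))) F
  have pt : ∀ f ∈ mon k n, |𝔼 σ ∈ box k (M - g + K), lam (Q.eval (f + D * (β * D) * σ ^ 2) ^ 2 +
      β * (f + D * (β * D) * σ ^ 2) + γ)| ≤ ε / 4 + 2 * (𝔼 σ ∈ box k (M - g + K),
        (if ∃ A B : k[X], β * (f + D * (β * D) * σ ^ 2) + γ = A ^ 2 + X * B ^ 2 ∧
          ¬ Cmn D (Q.eval (f + D * (β * D) * σ ^ 2) + A) B then (1 : ℝ) else 0)) +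
      (if ∃ A B : k[X], β * f + γ = A ^ 2 + X * B ^ 2 ∧
        ¬ Good L M (M - g) (β * D) B then (1 : ℝ) else 0) := fun f hf => by
      have hfn := (mem_mon.1 hf).2
      have nn : 0 ≤ 𝔼 σ ∈ box k (M - g + K), (if ∃ A B : k[X],
          β * (f + D * (β * D) * σ ^ 2) + γ = A ^ 2 + X * B ^ 2 ∧
          ¬ Cmn D (Q.eval (f + D * (β * D) * σ ^ 2) + A) B then (1 : ℝ) else 0) :=
        expect_nonneg fun σ _ => by split_ifs <;> norm_num
      obtain ⟨A₀, B, hAB, hd⟩ := exists_ab (β * f + γ)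
      by_cases hgd' : Good L M (M - g) (β * D) B
      swap
      · rw [if_pos ⟨A₀, B, hAB, hgd'⟩]
        have : |𝔼 σ ∈ box k (M - g + K), lam (Q.eval (f + D * (β * D) * σ ^ 2) ^ 2 +
            β * (f + D * (β * D) * σ ^ 2) + γ)| ≤ 1 :=
          (abs_expect_le _ _).trans (expect_le (box_nonempty _) fun σ _ => (abs_lam _).le)
        linarith
      have d0 : (β * f + γ).natDegree ≤ 2 * M :=
        natDegree_add_le_of_degree_le (natDegree_mul_le.trans (by omega)) (by omega)
      obtain ⟨dA, dB⟩ := hd M (degree_le_natDegree.trans_lt (by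
        exact_mod_cast (by omega : (β * f + γ).natDegree < 2 * M + 1)))
      have dA' : A₀.natDegree ≤ M := cor2_nd dA
      have dB' : B.natDegree ≤ M := natDegree_le_of_degree_le dB.le
      obtain ⟨q1, q2, q3⟩ := hc n f (by omega) hfn
      obtain ⟨E, hE, hEv⟩ := hSHF Q f (β * D) D
      have e0 : D * pth E β 0 = 0 := by
        have := hEv 0
        rw [mul_zero, add_zero] at this
        unfold pth
        rw [show (0 : k[X]) ^ 2 = 0 by ring, mul_zero, add_zero]
        linear_combination -this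
      have dq : (Q.eval f + A₀).natDegree = (Q.eval f).natDegree :=
        natDegree_add_eq_left_of_natDegree_lt (by omega)
      have two : (2 : k[X]) = 0 := CharTwo.two_eq_zero
      have ep : ∀ σ : k[X], Q.eval f + A₀ + D * pth E β σ =
          Q.eval (f + D * (β * D) * σ ^ 2) + (A₀ + β * D * σ) := fun σ => by
        unfold pth
        rw [hEv]
        ring
      have eb : ∀ σ : k[X], β * (f + D * (β * D) * σ ^ 2) + γ =
          (A₀ + β * D * σ) ^ 2 + X * B ^ 2 := fun σ => by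
        linear_combination hAB - (A₀ * β * D * σ) * two
      have H := hL E (Q.eval f + A₀) B β D M (M - g) (M - g + K) g hE hgd' le_rfl (by omega)
        (by rw [e0, add_zero, dq]; omega) (by rw [e0, add_zero, dq]; omega)
        (fun σ hs => by
          rw [e0, add_zero, sub_zero, dq]
          have h1 := hh σ hs
          have h2 := q3 _ (by omega : (D * (β * D) * σ ^ 2).natDegree ≤ n)
          have h3 := hσ σ hs
          have h4 : (β * D * σ).natDegree ≤ β.natDegree + D.natDegree + σ.natDegree :=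
            natDegree_mul_le.trans (add_le_add natDegree_mul_le le_rfl)
          have e : D * pth E β σ =
              (Q.eval (f + D * (β * D) * σ ^ 2) - Q.eval f) + β * D * σ := by
            linear_combination ep σ
          have h5 := natDegree_add_le (Q.eval (f + D * (β * D) * σ ^ 2) - Q.eval f) (β * D * σ)
          rw [e]
          omega)
        (by
          rw [e0, add_zero, dq]
          have h1 : 24 * c * t ≤ 2 ^ (24 * c * t) := Nat.lt_two_pow_self.le
          have h2 : n ≤ 4 * (t * g) := by omega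
          calc 6 * (Q.eval f).natDegree ≤ 6 * (c * n) := by omega
            _ ≤ 6 * (c * (4 * (t * g))) := by gcongr
            _ = 24 * c * t * g := by ring
            _ ≤ _ := by gcongr)
      have e1 : ∀ σ : k[X], Q.eval (f + D * (β * D) * σ ^ 2) ^ 2 +
          β * (f + D * (β * D) * σ ^ 2) + γ =
          (Q.eval f + A₀ + D * pth E β σ) ^ 2 + X * B ^ 2 := fun σ => by
        rw [ep σ]
        linear_combination eb σ -
          (Q.eval (f + D * (β * D) * σ ^ 2) * (A₀ + β * D * σ)) * two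
      have h6 : 𝔼 σ ∈ box k (M - g + K),
          (if ¬ Cmn D (Q.eval f + A₀ + D * pth E β σ) B then (1 : ℝ) else 0) ≤
          𝔼 σ ∈ box k (M - g + K), (if ∃ A B : k[X],
          β * (f + D * (β * D) * σ ^ 2) + γ = A ^ 2 + X * B ^ 2 ∧
          ¬ Cmn D (Q.eval (f + D * (β * D) * σ ^ 2) + A) B then (1 : ℝ) else 0) :=
        expect_le_expect fun σ _ => by
          by_cases h : Cmn D (Q.eval f + A₀ + D * pth E β σ) B
          · rw [if_neg (not_not.2 h)]
            split_ifs <;> norm_num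
          · rw [if_pos h, if_pos ⟨A₀ + β * D * σ, B, eb σ, by rwa [← ep σ]⟩]
      have h7 : (0 : ℝ) ≤ if ∃ A B : k[X], β * f + γ = A ^ 2 + X * B ^ 2 ∧
          ¬ Good L M (M - g) (β * D) B then (1 : ℝ) else 0 := by split_ifs <;> norm_num
      simp only [e1]
      linarith
  have key := cor2_avg (mon k n) (box k (M - g + K)) (mon_nonempty _) (box_nonempty _)
    (fun f => lam (Q.eval f ^ 2 + β * f + γ))
    (fun f => if ∃ A B : k[X], β * f + γ = A ^ 2 + X * B ^ 2 ∧ ¬ Cmn D (Q.eval f + A) B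
      then (1 : ℝ) else 0)
    (fun f => if ∃ A B : k[X], β * f + γ = A ^ 2 + X * B ^ 2 ∧
      ¬ Good L M (M - g) (β * D) B then (1 : ℝ) else 0)
    (fun f σ => f + D * (β * D) * σ ^ 2) (ε / 4)
    (hsh fun f => lam (Q.eval f ^ 2 + β * f + γ))
    (hsh fun f => if ∃ A B : k[X], β * f + γ = A ^ 2 + X * B ^ 2 ∧ ¬ Cmn D (Q.eval f + A) B
      then (1 : ℝ) else 0) pt
  have h1 := hB γ hγ
  have h2 := hDOM β γ n M (fun B => ¬ Good L M (M - g) (β * D) B) hβ m1 m2 hγ
  have h3 := mul_le_mul_of_nonneg_left hG hq.le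
  rw [mul_div_cancel₀ _ hq.ne'] at h3
  beta_reduce at key h2
  have h4 := h2.trans ((mul_le_mul_of_nonneg_left (expect_le_expect fun B _ => by
    by_cases h : Good L M (M - g) (β * D) B <;> simp [h]) hq.le).trans h3)
  linarith

end

section
theorem res2_row (k : Type*) [Field k] [Fintype k] [CharP k 2] (hCOR : COR2_s k) (hDEG : DEG_s k)
    (Q : k[X][X]) (hQ : 0 < Q.natDegree) (a b : k[X])
    (ha : a ≠ 0) (hb : b ≠ 0) (ε : ℝ) (hε : 0 < ε) : ∃ n₀ : ℕ, ∀ n : ℕ, n₀ ≤ n → ∀ c : k[X],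
      c.natDegree ≤ n + b.natDegree → |∑ᶠ f ∈ {f : k[X] | f.Monic ∧ f.natDegree = n},
        (-1 : ℝ) ^ (UniqueFactorizationMonoid.factors (a * Q.eval f ^ 2 + b * f + c)).card|
      ≤ ε * (Nat.card k : ℝ) ^ n := by
  obtain ⟨m, hm⟩ := eventually_atTop.1 (hCOR (C a * Q) (a * b) ε
    (by rwa [natDegree_C_mul ha]) (mul_ne_zero ha hb) hε)
  obtain ⟨c₀, hc₀⟩ := hDEG Q hQ
  refine ⟨m + b.natDegree + c₀ + 1, fun n hn c hc => ?_⟩
  have q2 : (2 : ℝ) ≤ qq k := two_le_qq
  have h := hm n (by omega) (a * c) (by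
    have := natDegree_mul_le (p := a) (q := c)
    rw [natDegree_mul ha hb]
    omega)
  have e : 𝔼 f ∈ mon k n, lam ((C a * Q).eval f ^ 2 + a * b * f + a * c) =
      lam a * 𝔼 f ∈ mon k n, lam (a * Q.eval f ^ 2 + b * f + c) := by
    rw [mul_expect]
    refine expect_congr rfl fun f hf => ?_
    obtain ⟨h1, h2⟩ := mem_mon.1 hf
    rw [← lam_mul ha, eval_mul, eval_C, show a * (a * Q.eval f ^ 2 + b * f + c) =
      (a * Q.eval f) ^ 2 + a * b * f + a * c by ring]
    have d0 := (hc₀ n f (by omega) h2).1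
    have q0 : Q.eval f ≠ 0 := fun h0 => by
      rw [h0, natDegree_zero] at d0
      omega
    have d1 : (a * Q.eval f ^ 2).natDegree = a.natDegree + 2 * (Q.eval f).natDegree := by
      rw [natDegree_mul ha (pow_ne_zero 2 q0), natDegree_pow]
    have d2 : (b * f + c).natDegree ≤ b.natDegree + n :=
      natDegree_add_le_of_degree_le (natDegree_mul_le.trans (by omega)) (by omega)
    intro h0
    rw [add_assoc, add_eq_zero_iff_eq_neg] at h0
    rw [h0, natDegree_neg] at d1
    omega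
  rw [e, abs_mul, abs_lam, one_mul, expect_eq_sum_div_card, card_mon, abs_div,
    abs_of_pos (a := qq k ^ n) (by positivity), div_le_iff₀ (by positivity)] at h
  rw [show {f : k[X] | f.Monic ∧ f.natDegree = n} = ↑(mon k n) by ext f; simp [mem_mon],
    finsum_mem_coe_finset, Nat.card_eq_fintype_card]
  simpa only [lam, qq] using h

theorem res3_row (k : Type*) [Field k] [Fintype k] [CharP k 2] (hCOR : COR2_s k) (hDEG : DEG_s k)
    (Q : k[X][X]) (hQ : 0 < Q.natDegree) (a b M : k[X]) (ha : a ≠ 0) (hb : b ≠ 0) (hM : M ≠ 0)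
    (ε : ℝ) (hε : 0 < ε) : ∃ n₀ : ℕ, ∀ n : ℕ, n₀ ≤ n → ∀ r c : k[X],
      c.natDegree ≤ n + b.natDegree →
      |∑ᶠ f ∈ {f : k[X] | f.Monic ∧ f.natDegree = n ∧ M ∣ f - r},
        (-1 : ℝ) ^ (UniqueFactorizationMonoid.factors (a * Q.eval f ^ 2 + b * f + c)).card|
      ≤ ε * (Nat.card k : ℝ) ^ n := by
  obtain ⟨N, hN, hNM⟩ : ∃ N : k[X], N.Monic ∧ ∀ x, M ∣ x ↔ N ∣ x :=
    ⟨normalize M, monic_normalize hM, fun x => normalize_dvd_iff.symm⟩
  simp only [hNM]
  have H := fun s : k[X] => res2_row k hCOR hDEG (Q.comp (C N * X + C s))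
    (by rwa [natDegree_comp, natDegree_linear hN.ne_zero, mul_one]) a (b * N) ha
    (mul_ne_zero hb hN.ne_zero) ε hε
  choose m hm using H
  refine ⟨(box k N.natDegree).sup m + N.natDegree, fun n hn r c hc => ?_⟩
  obtain ⟨n, rfl⟩ := Nat.exists_eq_add_of_le' (le_of_add_le_right hn)
  have hs : (r %ₘ N).degree < N.degree := degree_modByMonic_lt r hN
  have hs' : r %ₘ N ∈ box k N.natDegree := mem_box.2 (by rwa [← degree_eq_natDegree hN.ne_zero])
  have hr : N ∣ r %ₘ N - r := ⟨-(r /ₘ N), by linear_combination modByMonic_add_div r N⟩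
  generalize r %ₘ N = s at *
  have hs2 : s.natDegree ≤ N.natDegree := natDegree_le_natDegree hs.le
  have h := hm s n ((le_sup hs').trans (by omega)) (b * s + c) (by
    rw [natDegree_mul hb hN.ne_zero]
    exact natDegree_add_le_of_degree_le (natDegree_mul_le.trans (by omega)) (by omega))
  have e : {f : k[X] | f.Monic ∧ f.natDegree = n + N.natDegree ∧ N ∣ f - r} =
      (fun y => N * y + s) '' {f : k[X] | f.Monic ∧ f.natDegree = n} := by
    have key : ∀ y : k[X], y ≠ 0 → s.degree < (N * y).degree := fun y hy =>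
      hs.trans_le (degree_le_mul_left N hy)
    ext f
    constructor
    · rintro ⟨h1, h2, h3⟩
      obtain ⟨y, hy⟩ := dvd_sub h3 hr
      have e1 : f = N * y + s := by linear_combination hy
      have y0 : y ≠ 0 := by
        rintro rfl
        rw [mul_zero, zero_add] at e1
        have := natDegree_lt_natDegree h1.ne_zero (e1 ▸ hs)
        omega
      have l1 : (N * y).Monic := by
        rw [Monic, ← leadingCoeff_add_of_degree_lt' (key y y0), ← e1]
        exact h1
      have l2 := hN.of_mul_monic_left l1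
      refine ⟨y, ⟨l2, ?_⟩, e1.symm⟩
      rw [e1, natDegree_add_eq_left_of_degree_lt (key y y0), hN.natDegree_mul l2] at h2
      omega
    · rintro ⟨y, ⟨h1, h2⟩, rfl⟩
      refine ⟨(hN.mul h1).add_of_left (key y h1.ne_zero), ?_, ?_⟩
      · rw [natDegree_add_eq_left_of_degree_lt (key y h1.ne_zero), hN.natDegree_mul h1]
        omega
      · rw [add_sub_assoc]
        exact dvd_add (dvd_mul_right _ _) hr
  rw [e, finsum_mem_image fun x _ y _ h => mul_left_cancel₀ hN.ne_zero (add_right_cancel h)]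
  refine le_trans (le_of_eq ?_) (h.trans (mul_le_mul_of_nonneg_left (pow_le_pow_right₀ ?_
    (Nat.le_add_right _ _)) hε.le))
  · congr 1
    refine finsum_mem_congr rfl fun y _ => ?_
    rw [eval_comp, eval_add, eval_mul, eval_C, eval_C, eval_X,
      show ∀ z, z + b * (N * y + s) + c = z + b * N * y + (b * s + c) from fun z => by ring]
  · exact_mod_cast Nat.card_pos

end

end Pool.Agent.MP_a4a062_nt.Q58
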