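import Pool.Agent.MP_a4a062_nt.C2.P4

/-! Liouville at quadratic polynomial values in characteristic two: definitions, statements. -/

set_option autoImplicit false

open Polynomial Finset Filter
open scoped Classical BigOperators

noncomputable section
namespace Pool.Agent.MP_a4a062_nt.Q58
open Pool.Agent.MP_a4a062_nt.C2

section
variable {k : Type*} [Field k]

/-- The numerator of the Berlekamp discriminant. -/
def NN (A B : k[X]) : k[X] :=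
  (X * (derivative A ^ 2 + X * derivative B ^ 2)) ^ 3 +
    X * (derivative A ^ 2 + X * derivative B ^ 2) * (X ^ 2 * derivative B ^ 2) * B ^ 2 +
    X ^ 3 * hasseDeriv 4 (A ^ 2 + X * B ^ 2) * B ^ 4

/-- Differences of distinct members avoid `R`. -/
def IncR (R : k[X] → Prop) (S : Finset k[X]) : Prop := ∀ a ∈ S, ∀ b ∈ S, R (a - b) → a = b

/-- A simple medium prime times two coprime pieces of degree at most `l`. -/
def Good (L M l : ℕ) (Δ B : k[X]) : Prop := ∃ (β : k) (p r₁ r₂ : k[X]), β ≠ 0 ∧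
  B = C β * (p * (r₁ * r₂)) ∧ p.Monic ∧ Irreducible p ∧ r₁.Monic ∧ r₂.Monic ∧ IsCoprime r₁ r₂ ∧
  ¬ p ∣ r₁ * r₂ ∧ ¬ p ∣ Δ ∧ L ≤ p.natDegree ∧ 4 * p.natDegree ≤ M ∧ r₁.natDegree ≤ l ∧
  r₂.natDegree ≤ l

/-- All common divisors divide `D`. -/
def Cmn (D A B : k[X]) : Prop := ∀ e, e ∣ A → e ∣ B → e ∣ D

end

variable (k : Type*) [Field k] [Fintype k]

def BERL_s : Prop := ∀ a : ℕ, ∃ c : k, ∀ A B V : k[X], B.Monic → A.natDegree = a →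
  B.natDegree < a → B ^ 4 ∣ (A ^ 2 + X * B ^ 2) * V - 1 → lam (A ^ 2 + X * B ^ 2) =
    psi (c + tau (C (A.leadingCoeff⁻¹ ^ 2) * (A ^ 2 + X * B ^ 2) * B ^ 4)
      (C (A.leadingCoeff⁻¹ ^ 2) * NN A B) + tau (B ^ 4) (NN A B * V))

def SPLIT_s : Prop := ∀ (r : k[X]) (c T : ℕ), r ≠ 0 → T ≤ r.natDegree →
  (∀ (π : k[X]) (i : ℕ), Irreducible π → π ^ i ∣ r → i * π.natDegree ≤ c) →
    ∃ r₁ r₂ : k[X], r = r₁ * r₂ ∧ IsCoprime r₁ r₂ ∧ T ≤ r₁.natDegree ∧ r₁.natDegree ≤ T + c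

def BOXM_s : Prop := ∀ (P : k[X] → Prop) (M c : ℕ) (ε : ℝ), 0 ≤ ε → c ≤ M →
  (∀ (u : k) (f : k[X]), u ≠ 0 → P (C u * f) → P f) →
  (∀ m, m < M → M ≤ m + c → 𝔼 f ∈ mon k m, (if P f then (1 : ℝ) else 0) ≤ ε) →
    𝔼 f ∈ box k M, (if P f then (1 : ℝ) else 0) ≤ ε + 1 / 2 ^ c

def HUGE_s : Prop := ∀ m w L : ℕ, 4 * w ≤ m → 6 * L ≤ m →
  𝔼 B ∈ mon k m, (if ∃ (π : k[X]) (i : ℕ), Irreducible π ∧ π ^ i ∣ B ∧
    m < i * π.natDegree + 2 * w then (1 : ℝ) else 0) ≤ 4 * (w : ℝ) / m + 2 / 2 ^ L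

def GOOD_s : Prop := ∀ ε : ℝ, 0 < ε → ∃ t : ℕ, 2 ≤ t ∧ ∀ (L : ℕ) (Δ : k[X]), Δ ≠ 0 →
  ∀ᶠ M in atTop, 𝔼 B ∈ box k M, (if ¬ Good L M (M - M / t) Δ B then (1 : ℝ) else 0) ≤ ε

def DOM_s : Prop := ∀ (β γ : k[X]) (n M : ℕ) (P : k[X] → Prop), β ≠ 0 →
  n + β.natDegree ≤ 2 * M → 2 * M ≤ n + β.natDegree + 1 → γ.natDegree ≤ n + β.natDegree →
    𝔼 f ∈ mon k n, (if ∃ A B : k[X], β * f + γ = A ^ 2 + X * B ^ 2 ∧ P B then (1 : ℝ) else 0) ≤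
      qq k ^ (β.natDegree + 2) * 𝔼 B ∈ box k M, (if P B then (1 : ℝ) else 0)

end Pool.Agent.MP_a4a062_nt.Q58
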