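import Pool.Agent.MP_a4a062_nt.Q58.Defs

/-! Liouville at values of `Q ^ 2 + β Y + γ` in characteristic two: statements. -/

set_option autoImplicit false

open Polynomial Finset Filter
open scoped Classical BigOperators

noncomputable section
namespace Pool.Agent.MP_a4a062_nt.Q58
open Pool.Agent.MP_a4a062_nt.C2

section
variable {k : Type*} [Field k]

/-- The path of `A` along a line. -/
def pth (E : k[X][X]) (v σ : k[X]) : k[X] := E.eval (σ ^ 2) + v * σ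

/-- Additive to fourth order. -/
def Tay (v : k[X]) (a : k[X] → k[X]) : Prop :=
  ∀ σ, ∃ u, ∀ y, ∃ x, a (σ + y) = a σ + (v * y + u * y ^ 2) + y ^ 4 * x

/-- The inverses along `S` exist modulo `p` and their sum is not zero. -/
def Nd (p : k[X]) (a : k[X] → k[X]) (S : Finset k[X]) (σ : k[X]) : Prop :=
  ∃ U : k[X] → k[X], (∀ t ∈ S, p ∣ a (σ + t) * U t - 1) ∧ ¬ p ∣ ∑ t ∈ S, U t

end

variable (k : Type*) [Field k] [Fintype k]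

def PTH_s : Prop := ∀ (E : k[X][X]) (v : k[X]) (e : ℕ), E.natDegree ≤ e →
  Tay v (pth E v) ∧ PDeg (2 * e + 1) (pth E v)

def INF2_s : Prop := ∀ (j : ℕ) (A₀ B : k[X]), B.Monic → B.natDegree < A₀.natDegree →
  ∃ Θ : k[X] → ℝ, (∀ (e : ℕ) (a : k[X] → k[X]), PDeg e a →
    Kill (e * (2 * 2 ^ j + 4)) 1 fun σ => Θ (a σ)) ∧ ∀ (δ V : k[X]) (g : ℕ),
    δ.natDegree + g ≤ A₀.natDegree → 6 * A₀.natDegree ≤ 2 ^ j * g →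
    B ^ 4 ∣ ((A₀ + δ) ^ 2 + X * B ^ 2) * V - 1 →
      lam ((A₀ + δ) ^ 2 + X * B ^ 2) = Θ (A₀ + δ) * psi (tau (B ^ 4) (NN (A₀ + δ) B * V))

def LOC4_s : Prop := ∀ p r₁ r₂ : k[X], p.Monic → Irreducible p → r₁.Monic → r₂.Monic →
  IsCoprime r₁ r₂ → ¬ p ∣ r₁ * r₂ → ∃ (Φ Θ₁ Θ₂ : k[X] → ℝ) (κ : k[X]), (∀ A, Φ A * Φ A = 1) ∧
    Kill 18 r₁ Θ₁ ∧ Kill 18 r₂ Θ₂ ∧ ¬ p ∣ κ ∧ (∀ A x, Φ (A + p ^ 4 * x) = Φ A) ∧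
    (∀ A x, Θ₁ (A + r₁ ^ 4 * x) = Θ₁ A) ∧ (∀ A x, Θ₂ (A + r₂ ^ 4 * x) = Θ₂ A) ∧
    (∀ A V, (p * (r₁ * r₂)) ^ 4 ∣ (A ^ 2 + X * (p * (r₁ * r₂)) ^ 2) * V - 1 →
      psi (tau ((p * (r₁ * r₂)) ^ 4) (NN A (p * (r₁ * r₂)) * V)) = Φ A * Θ₁ A * Θ₂ A) ∧
    ∀ A y z U, p ∣ A * U - 1 → Φ A * Φ (A + p * y) * Φ (A + p * z) * Φ (A + p * y + p * z) =
      psi (tau p (κ * U * (y ^ 2 * z + y * z ^ 2)))

def VDC3_s : Prop := ∀ (δ ρ : ℕ) (ε : ℝ), 0 < ε → ∃ (η : ℝ) (K s' : ℕ), 0 < η ∧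
  ∀ (W : Fin 3 → k[X]) (Θ : Fin 3 → k[X] → ℝ) (R : k[X] → Prop) (e : ℕ) (Φ : k[X] → ℝ) (l : ℕ),
    K ≤ e → R 0 → (∀ t, R t → R (-t)) → (∀ i x, #{s ∈ box k e | R (x - W i * s)} ≤ ρ) →
    (∀ i, (W i).natDegree + K ≤ l) → (∀ i, Kill δ (W i) (Θ i)) → (∀ A, |Φ A| ≤ 1) →
    (∀ S : Finset k[X], S.Nonempty → #S ≤ s' → IncR R S →
      |𝔼 A ∈ box k l, ∏ a ∈ S, Φ (A + a)| ≤ η) →
    |𝔼 A ∈ box k l, Φ A * ∏ i, Θ i A| ≤ ε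

def KAPG_s : Prop := ∀ (p v : k[X]) (E : k[X][X]) (e : ℕ), p.Monic → Irreducible p → ¬ p ∣ v →
  E.natDegree ≤ e → ∃ R : k[X] → Prop, R 0 ∧ (∀ t, R t → R (-t)) ∧
    (∀ W x, ¬ p ∣ W → #{s ∈ box k p.natDegree | R (x - W * s)} ≤ (2 * e + 1) ^ 2) ∧
    ∀ (S : Finset k[X]) (l : ℕ), S.Nonempty → IncR R S → p.natDegree ≤ l →
      𝔼 σ ∈ box k l, (if ¬ Nd p (pth E v) S σ then (1 : ℝ) else 0) ≤
        2 * (2 * e + 1) * (#S : ℝ) / qq k ^ p.natDegree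

def BASE3_s : Prop := ∀ η : ℝ, 0 < η → ∃ c : ℕ, ∀ (p κ v : k[X]) (a : k[X] → k[X])
  (Φ : k[X] → ℝ) (l : ℕ) (S : Finset k[X]), p.Monic → Irreducible p → c ≤ p.natDegree → ¬ p ∣ κ →
    ¬ p ∣ v → 2 * p.natDegree ≤ l → (∀ A, Φ A * Φ A = 1) → (∀ A x, Φ (A + p ^ 4 * x) = Φ A) →
    (∀ A y z U, p ∣ A * U - 1 → Φ A * Φ (A + p * y) * Φ (A + p * z) * Φ (A + p * y + p * z) =
      psi (tau p (κ * U * (y ^ 2 * z + y * z ^ 2)))) → Tay v a →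
      |𝔼 σ ∈ box k l, ∏ t ∈ S, Φ (a (σ + t))| ≤
        η + 𝔼 σ ∈ box k l, (if ¬ Nd p a S σ then (1 : ℝ) else 0)

def LINE2_s : Prop := ∀ (j e : ℕ) (ε : ℝ), 0 < ε → ∃ L K : ℕ, ∀ (E : k[X][X]) (B v Δ : k[X])
  (M l₀ l g : ℕ), E.natDegree ≤ e → Good L M l₀ Δ B → v ∣ Δ → l₀ + K ≤ l → M ≤ 2 * l →
    B.natDegree < (pth E v 0).natDegree →
    (∀ σ ∈ box k l, (pth E v σ - pth E v 0).natDegree + g ≤ (pth E v 0).natDegree) →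
    6 * (pth E v 0).natDegree ≤ 2 ^ j * g →
      |𝔼 σ ∈ box k l, lam (pth E v σ ^ 2 + X * B ^ 2)| ≤ ε + 2 *
        𝔼 σ ∈ box k l, (if ¬ IsCoprime (pth E v σ) B then (1 : ℝ) else 0)

def LINED2_s : Prop := ∀ (j e : ℕ) (ε : ℝ), 0 < ε → ∃ L K : ℕ, ∀ (E : k[X][X]) (A B v D : k[X])
  (M l₀ l g : ℕ), E.natDegree ≤ e → Good L M l₀ (v * D) B → l₀ + K ≤ l → M ≤ 2 * l →
    B.natDegree < (A + D * pth E v 0).natDegree →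
    D.natDegree + g ≤ (A + D * pth E v 0).natDegree →
    (∀ σ ∈ box k l, (D * pth E v σ - D * pth E v 0).natDegree + g ≤
      (A + D * pth E v 0).natDegree) →
    6 * (A + D * pth E v 0).natDegree ≤ 2 ^ j * g →
      |𝔼 σ ∈ box k l, lam ((A + D * pth E v σ) ^ 2 + X * B ^ 2)| ≤ ε + 2 *
        𝔼 σ ∈ box k l, (if ¬ Cmn D (A + D * pth E v σ) B then (1 : ℝ) else 0)

def SHF_s : Prop := ∀ (Q : k[X][X]) (f w D : k[X]), ∃ E : k[X][X],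
  E.natDegree ≤ Q.natDegree + 1 ∧ ∀ y, Q.eval (f + D * w * y) = Q.eval f + D * E.eval y

def DEG_s : Prop := ∀ Q : k[X][X], 0 < Q.natDegree → ∃ c : ℕ, ∀ (n : ℕ) (f : k[X]), c < n →
  f.natDegree = n → n ≤ (Q.eval f).natDegree ∧ (Q.eval f).natDegree ≤ c * n ∧
    ∀ h : k[X], h.natDegree ≤ n →
      (Q.eval (f + h) - Q.eval f).natDegree + n ≤ (Q.eval f).natDegree + h.natDegree + c

def ROOT2_s : Prop := ∀ (Q : k[X][X]) (β γ π : k[X]) (n : ℕ), π.Monic → Irreducible π → ¬ π ∣ β →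
  𝔼 f ∈ mon k n, (if π ^ 2 ∣ Q.eval f ^ 2 + β * f + γ then (1 : ℝ) else 0) ≤
    (2 * Q.natDegree + 1 : ℝ) / qq k ^ (2 * π.natDegree) + (2 * Q.natDegree + 1 : ℝ) / qq k ^ n

def BAD2_s : Prop := ∀ (Q : k[X][X]) (β : k[X]) (ε : ℝ), β ≠ 0 → 0 < ε → ∃ D : k[X], D ≠ 0 ∧
  ∀ᶠ n in atTop, ∀ γ : k[X], γ.natDegree ≤ n + β.natDegree →
    𝔼 f ∈ mon k n, (if ∃ A B : k[X], β * f + γ = A ^ 2 + X * B ^ 2 ∧ ¬ Cmn D (Q.eval f + A) B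
      then (1 : ℝ) else 0) ≤ ε

def COR2_s : Prop := ∀ (Q : k[X][X]) (β : k[X]) (ε : ℝ), 0 < Q.natDegree → β ≠ 0 → 0 < ε →
  ∀ᶠ n in atTop, ∀ γ : k[X], γ.natDegree ≤ n + β.natDegree →
    |𝔼 f ∈ mon k n, lam (Q.eval f ^ 2 + β * f + γ)| ≤ ε

end Pool.Agent.MP_a4a062_nt.Q58
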